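import Pool.Agent.H98.BE.SpecBasic

set_option autoImplicit false

/-!
# The spectral inequalities for transpositions and full cycles
-/

open Finset Equiv
open scoped InnerProductSpace

namespace Pool.H98.BE

variable {α : Type*} [Fintype α] [DecidableEq α]
variable {V : Type*} [NormedAddCommGroup V] [InnerProductSpace ℝ V] [FiniteDimensional ℝ V]
variable {ρ : Perm α →* (V →ₗ[ℝ] V)}

lemma T2_fixed {S : Finset α} {w : V}
    (hfix : ∀ x ∈ S, ∀ y ∈ S, ρ (Equiv.swap x y) w = w) :
    T2 ρ S w = ((S.card : ℝ) * ((S.card : ℝ) - 1)) • w := by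
  unfold T2 J
  rw [LinearMap.sum_apply]
  have h1 : ∀ p ∈ S, (∑ q ∈ S.erase p, ρ (Equiv.swap p q)) w = ((S.card : ℝ) - 1) • w := by
    intro p hp
    rw [LinearMap.sum_apply]
    rw [Finset.sum_congr rfl (fun q hq => hfix p hp q (Finset.mem_of_mem_erase hq))]
    rw [Finset.sum_const, Finset.card_erase_of_mem hp, ← Nat.cast_smul_eq_nsmul ℝ]
    rw [Nat.cast_sub (Finset.card_pos.2 ⟨p, hp⟩)]
    norm_num
  rw [Finset.sum_congr rfl h1, Finset.sum_const, ← Nat.cast_smul_eq_nsmul ℝ, smul_smul]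

/-- the part of `W` on which `J ρ S p` is the scalar `c` -/
def sub (ρ : Perm α →* (V →ₗ[ℝ] V)) (W : Submodule ℝ V) (S : Finset α) (p : α) (c : ℝ) :
    Submodule ℝ V :=
  W ⊓ LinearMap.ker (J ρ S p - c • LinearMap.id)

omit [FiniteDimensional ℝ V] in
lemma mem_sub {W : Submodule ℝ V} {S : Finset α} {p : α} {c : ℝ} {w : V} :
    w ∈ sub ρ W S p c ↔ w ∈ W ∧ J ρ S p w = c • w := by
  unfold sub
  rw [Submodule.mem_inf, LinearMap.mem_ker, LinearMap.sub_apply, sub_eq_zero]
  simp

lemma sub_inv {W : Submodule ℝ V} {S : Finset α} {p : α} {c : ℝ}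
    (hinv : ∀ x ∈ S, ∀ y ∈ S, ∀ w ∈ W, ρ (Equiv.swap x y) w ∈ W) :
    ∀ x ∈ S.erase p, ∀ y ∈ S.erase p, ∀ w ∈ sub ρ W S p c,
      ρ (Equiv.swap x y) w ∈ sub ρ W S p c := by
  intro x hx y hy w hw
  rw [mem_sub] at hw ⊢
  refine ⟨hinv x (Finset.mem_of_mem_erase hx) y (Finset.mem_of_mem_erase hy) w hw.1, ?_⟩
  rw [J_comm_swap hx hy, hw.2, map_smul]

lemma sub_T {W : Submodule ℝ V} {S : Finset α} {p : α} (hp : p ∈ S) {c t : ℝ}
    (hT : ∀ w ∈ W, T2 ρ S w = (2 * t) • w) :
    ∀ w ∈ sub ρ W S p c, T2 ρ (S.erase p) w = (2 * (t - c)) • w := by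
  intro w hw
  rw [mem_sub] at hw
  have h := T2_erase (ρ := ρ) hp w
  rw [hT w hw.1, hw.2] at h
  have : T2 ρ (S.erase p) w = (2 * t) • w - (2 : ℝ) • c • w := by
    rw [h]; simp
  rw [this, smul_smul, ← sub_smul]
  congr 1
  ring

/-- the two-element case -/
lemma T2_pair {S : Finset α} (hS : S.card = 2) {w : V} (hw : w ≠ 0) {t : ℝ}
    (hT : T2 ρ S w = (2 * t) • w) (hne : t ≠ 1) :
    t = -1 ∧ C ρ S w = (-1 : ℝ) • w := by
  obtain ⟨x, y, hxy, rfl⟩ := Finset.card_eq_two.1 hS
  have h1 : T2 ρ ({x, y} : Finset α) w = (2 : ℝ) • ρ (Equiv.swap x y) w := by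
    unfold T2 J
    rw [LinearMap.sum_apply, Finset.sum_pair hxy]
    have e1 : ({x, y} : Finset α).erase x = {y} := by
      ext z; simp only [mem_erase, mem_insert, mem_singleton]; constructor
      · rintro ⟨h1, h2 | h2⟩
        · exact absurd h2 h1
        · exact h2
      · rintro rfl; exact ⟨hxy.symm, Or.inr rfl⟩
    have e2 : ({x, y} : Finset α).erase y = {x} := by
      ext z; simp only [mem_erase, mem_insert, mem_singleton]; constructor
      · rintro ⟨h1, h2 | h2⟩
        · exact h2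
        · exact absurd h2 h1
      · rintro rfl; exact ⟨hxy, Or.inl rfl⟩
    rw [e1, e2, Finset.sum_singleton, Finset.sum_singleton, Equiv.swap_comm y x, two_smul]
  have h2 : ρ (Equiv.swap x y) w = t • w := by
    rw [h1, mul_smul] at hT
    exact smul_right_injective V (two_ne_zero' ℝ) hT
  have h3 : w = (t * t) • w := by
    have h4 : ρ (Equiv.swap x y) (ρ (Equiv.swap x y) w) = w := by
      rw [← Module.End.mul_apply, ← map_mul, Equiv.swap_mul_self, map_one]
      rfl
    rw [h2, map_smul, h2, smul_smul] at h4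
    exact h4.symm
  have h5 : t * t = 1 := by
    have h6 : (t * t - 1) • w = 0 := by rw [sub_smul, one_smul, ← h3, sub_self]
    rcases smul_eq_zero.1 h6 with h | h
    · linarith
    · exact absurd h hw
  have h7 : t = -1 := by
    have : (t - 1) * (t + 1) = 0 := by linarith
    rcases mul_eq_zero.1 this with h | h
    · exact absurd (by linarith) hne
    · linarith
  refine ⟨h7, ?_⟩
  unfold C
  rw [cyc_pair hxy, Finset.sum_singleton, h2, h7]

/-- a nonzero vector of an invariant submodule which is an eigenvector of a star operator, together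
with the case in which it is fixed by the smaller symmetric group -/
lemma case_fixed (hρ : ∀ (σ : Perm α) (u v : V), ⟪ρ σ u, ρ σ v⟫_ℝ = ⟪u, v⟫_ℝ)
    {S : Finset α} {p : α} (hp : p ∈ S) {W : Submodule ℝ V} {c t : ℝ} {w : V} (hw : w ≠ 0)
    (hwW : w ∈ sub ρ W S p c) (hT : ∀ w ∈ W, T2 ρ S w = (2 * t) • w)
    (hne : 2 * t ≠ S.card * (S.card - 1))
    (h : 2 * (t - c) = ((S.erase p).card : ℝ) * ((S.erase p).card - 1)) :
    c = -1 ∧ ∀ x ∈ S.erase p, ∀ y ∈ S.erase p, ρ (Equiv.swap x y) w = w := by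
  have h1 := sub_T hp hT w hwW
  rw [h] at h1
  have h2 := fixed_of_T2_max hρ h1
  refine ⟨?_, h2⟩
  by_contra hc
  rw [mem_sub] at hwW
  have h3 := fixed_of_fixed_erase hp h2 hwW.2 hc
  have h4 := T2_fixed h3
  rw [hT w hwW.1] at h4
  apply hne
  have h5 : (2 * t - S.card * (S.card - 1)) • w = 0 := by rw [sub_smul, h4, sub_self]
  rcases smul_eq_zero.1 h5 with h6 | h6
  · linarith
  · exact absurd h6 hw

/-- the spectral gap -/
theorem spec_T (hρ : ∀ (σ : Perm α) (u v : V), ⟪ρ σ u, ρ σ v⟫_ℝ = ⟪u, v⟫_ℝ) :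
    ∀ (k : ℕ), ∀ (S : Finset α), S.card = k + 2 → ∀ (W : Submodule ℝ V), W ≠ ⊥ →
      (∀ x ∈ S, ∀ y ∈ S, ∀ w ∈ W, ρ (Equiv.swap x y) w ∈ W) →
      ∀ (t : ℝ), (∀ w ∈ W, T2 ρ S w = (2 * t) • w) →
      2 * t ≠ ((k : ℝ) + 2) * (k + 1) → 2 * t ≤ ((k : ℝ) + 2) * (k - 1) := by
  intro k
  induction k with
  | zero =>
    intro S hS W hW _ t hT hne
    obtain ⟨w, hw, hw0⟩ := Submodule.exists_mem_ne_zero_of_ne_bot hW
    have h := T2_pair (by simpa using hS) hw0 (hT w hw) (by
      intro h; apply hne; rw [h]; norm_num)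
    rw [h.1]
    norm_num
  | succ k ih =>
    intro S hS W hW hinv t hT hne
    have hSne : S.Nonempty := Finset.card_pos.1 (by omega)
    obtain ⟨p, hp, c, hc, w, hwW, hw0, hJ⟩ := exists_small_eig hρ hSne W hW hinv hT
    have hS' : (S.erase p).card = k + 2 := by rw [Finset.card_erase_of_mem hp, hS]; rfl
    have hmem : w ∈ sub ρ W S p c := mem_sub.2 ⟨hwW, hJ⟩
    have hW' : sub ρ W S p c ≠ ⊥ := fun h => hw0 ((Submodule.eq_bot_iff _).1 h w hmem)
    have hk0 : (0 : ℝ) ≤ k := Nat.cast_nonneg k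
    rw [hS] at hc
    push_cast at hc hne ⊢
    by_cases hcase : 2 * (t - c) = ((k : ℝ) + 2) * (k + 1)
    · have h := case_fixed hρ hp hw0 hmem hT (by rw [hS]; push_cast; intro h; apply hne; linarith)
        (by rw [hS']; push_cast; rw [hcase]; ring)
      have hc1 := h.1
      subst hc1
      nlinarith
    · have h := ih (S.erase p) hS' (sub ρ W S p c) hW' (sub_inv hinv) (t - c) (sub_T hp hT) hcase
      have h1 : ((k : ℝ) + 1 + 2) * (2 * (t - c)) ≤ ((k : ℝ) + 1 + 2) * (((k : ℝ) + 2) * (k - 1)) :=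
        mul_le_mul_of_nonneg_left h (by linarith)
      have h2 : (2 * t) * ((k : ℝ) + 1) ≤ (((k : ℝ) + 1 + 2) * (k + 1 - 1)) * ((k : ℝ) + 1) := by
        nlinarith
      exact le_of_mul_le_mul_right h2 (by linarith)

/-- the arithmetic of the induction step, positive eigenvalue -/
lemma arith_pos {k u u' c κ' F : ℝ} (hk : 4 ≤ k) (hF : 0 ≤ F) (hu' : 0 ≤ u')
    (hc0 : 0 ≤ c) (hcu : k * c ≤ k * (k - 3) - 2 * u) (hu : 0 ≤ u) (huu : u' = u - (k - 2) + c)
    (h1 : κ' ≤ F * (u' - (k - 3))) (h2 : -κ' ≤ ((k - 3) * F) * (1 + u' / (k - 1))) :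
    c * κ' ≤ ((k - 3) * F) * (u - (k - 2)) ∧
      -(c * κ') ≤ ((k - 2) * ((k - 3) * F)) * (1 + u / k) := by
  have hc3 : c ≤ k - 3 := by
    have : k * c ≤ k * (k - 3) := by linarith
    exact le_of_mul_le_mul_left this (by linarith)
  constructor
  · have h3 : c * κ' ≤ c * (F * (u' - (k - 3))) := mul_le_mul_of_nonneg_left h1 hc0
    have h4 : 0 ≤ F * ((k - 3 - c) * u') := mul_nonneg hF (mul_nonneg (by linarith) hu')
    have h5 : ((k - 3) * F) * (u - (k - 2)) - c * (F * (u' - (k - 3)))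
        = F * ((k - 3 - c) * u') := by rw [huu]; ring
    linarith
  · have h3 : c * (-κ') ≤ c * (((k - 3) * F) * (1 + u' / (k - 1))) :=
      mul_le_mul_of_nonneg_left h2 hc0
    have hG : 0 ≤ (k - 3) * F := mul_nonneg (by linarith) hF
    have h4 : u' / (k - 1) ≤ u / k := by
      rw [div_le_div_iff₀ (by linarith) (by linarith)]
      nlinarith
    have h5 : 0 ≤ u' / (k - 1) := div_nonneg hu' (by linarith)
    have h6 : c * (1 + u' / (k - 1)) ≤ (k - 2) * (1 + u / k) :=
      mul_le_mul (by linarith) (by linarith) (by linarith) (by linarith)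
    have h7 := mul_le_mul_of_nonneg_left h6 hG
    nlinarith

/-- the arithmetic of the induction step, negative eigenvalue -/
lemma arith_neg {k u u' c κ' F : ℝ} (hk : 4 ≤ k) (hF : 0 ≤ F) (hu' : 0 ≤ u')
    (hc0 : c ≤ 0) (hc1 : -(k - 1) ≤ c) (hU : u' ≤ (k - 1) * (k - 3))
    (huu : u' = u - (k - 2) + c)
    (h1 : κ' ≤ F * (u' - (k - 3))) (h2 : -κ' ≤ ((k - 3) * F) * (1 + u' / (k - 1))) :
    c * κ' ≤ ((k - 3) * F) * (u - (k - 2)) ∧
      -(c * κ') ≤ ((k - 2) * ((k - 3) * F)) * (1 + u / k) := by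
  obtain ⟨a, rfl⟩ : ∃ a, c = -a := ⟨-c, by ring⟩
  have ha0 : 0 ≤ a := by linarith
  have ha1 : a ≤ k - 1 := by linarith
  have hu : u = u' + (k - 2) + a := by linarith
  have hG : 0 ≤ (k - 3) * F := mul_nonneg (by linarith) hF
  constructor
  · have h3 : a * (-κ') ≤ a * (((k - 3) * F) * (1 + u' / (k - 1))) :=
      mul_le_mul_of_nonneg_left h2 ha0
    have h4 : a * (u' / (k - 1)) ≤ u' := by
      rw [← mul_div_assoc, div_le_iff₀ (by linarith)]
      nlinarith
    have h5 := mul_le_mul_of_nonneg_left h4 hG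
    rw [hu]
    nlinarith
  · have h3 : a * κ' ≤ a * (F * (u' - (k - 3))) := mul_le_mul_of_nonneg_left h1 ha0
    have h4 : k * (a * (u' - (k - 3))) ≤ (k - 2) * (k - 3) * (u' + 2 * k - 2 + a) := by
      have h5 : 0 ≤ (k - 1 - a) := by linarith
      have h6 : 0 ≤ (k - 1) * (k - 3) - u' := by linarith
      set x := k - 1 - a with hx
      set y := (k - 1) * (k - 3) - u' with hy
      have ha : a = k - 1 - x := by rw [hx]; ring
      have hu2 : u' = (k - 1) * (k - 3) - y := by rw [hy]; ring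
      have e : (k - 2) * (k - 3) * (u' + 2 * k - 2 + a) - k * (a * (u' - (k - 3)))
          = (k - 1) * (k - 2) * (k - 3) * x + (4 * k - 6) * y - k * x * y := by
        rw [hu2, ha]; ring
      have hx1 : x ≤ k - 1 := by linarith
      have hy1 : y ≤ (k - 1) * (k - 3) := by linarith
      have h7 : 0 ≤ (k - 1) * (k - 2) * (k - 3) * x + (4 * k - 6) * y - k * x * y := by
        by_cases hcase : k * y ≤ (k - 1) * (k - 2) * (k - 3)
        · have h8 : 0 ≤ x * ((k - 1) * (k - 2) * (k - 3) - k * y) :=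
            mul_nonneg h5 (by linarith)
          have h9 : 0 ≤ (4 * k - 6) * y := mul_nonneg (by linarith) h6
          nlinarith
        · have h8 : 0 ≤ (k - 1 - x) * (k * y - (k - 1) * (k - 2) * (k - 3)) :=
            mul_nonneg (by linarith) (by linarith)
          have h9 : 0 ≤ (k - 2) * (k - 3) * ((k - 1) ^ 2 - y) := by
            apply mul_nonneg (mul_nonneg (by linarith) (by linarith))
            nlinarith
          nlinarith
      linarith
    have h5 : a * (u' - (k - 3)) ≤ (k - 2) * (k - 3) * (1 + u / k) := by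
      have hk0 : 0 < k := by linarith
      have e : (k - 2) * (k - 3) * (1 + u / k) = (k - 2) * (k - 3) * (u' + 2 * k - 2 + a) / k := by
        rw [hu]; field_simp; ring
      rw [e, le_div_iff₀ hk0]
      linarith
    have h6 := mul_le_mul_of_nonneg_left h5 hF
    nlinarith

theorem spec_bound_aux (hρ : ∀ (σ : Perm α) (u v : V), ⟪ρ σ u, ρ σ v⟫_ℝ = ⟪u, v⟫_ℝ) :
    ∀ (m : ℕ) (S : Finset α), S.card = m + 3 → ∀ (W : Submodule ℝ V), W ≠ ⊥ →
      (∀ x ∈ S, ∀ y ∈ S, ∀ w ∈ W, ρ (Equiv.swap x y) w ∈ W) →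
      ∀ (t κ : ℝ), (∀ w ∈ W, T2 ρ S w = (2 * t) • w) → (∀ w ∈ W, C ρ S w = κ • w) →
      2 * t ≠ ((m : ℝ) + 3) * (m + 2) →
      κ ≤ (m.factorial : ℝ) * (((m : ℝ) + 3) * m / 2 - t - (m + 1)) ∧
      -κ ≤ ((m + 1).factorial : ℝ) * (1 + (((m : ℝ) + 3) * m / 2 - t) / (m + 3)) := by
  intro m
  induction m with
  | zero =>
    intro S hS W hW hinv t κ hT hC hne
    have hSne : S.Nonempty := Finset.card_pos.1 (by omega)
    obtain ⟨p, hp, c, hc, w, hwW, hw0, hJ⟩ := exists_small_eig hρ hSne W hW hinv hT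
    have hS' : (S.erase p).card = 2 := by rw [Finset.card_erase_of_mem hp, hS]
    have hmem : w ∈ sub ρ W S p c := mem_sub.2 ⟨hwW, hJ⟩
    have hcb := J_eig_bound hρ hp hw0 hJ
    rw [hS] at hc hcb
    have hCw := C_insert (ρ := ρ) hp (by omega) w
    rw [hC w hwW] at hCw
    have hscal : ∀ r : ℝ, κ • w = r • w → κ = r := by
      intro r hr
      have : (κ - r) • w = 0 := by rw [sub_smul, hr, sub_self]
      rcases smul_eq_zero.1 this with h6 | h6
      · linarith
      · exact absurd h6 hw0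
    by_cases hcase : t - c = 1
    · have h := case_fixed hρ hp hw0 hmem hT (by
          rw [hS]; intro h; apply hne; rw [h]; norm_num)
        (by rw [hS', hcase]; norm_num)
      have hc1 := h.1
      rw [C_fixed (by omega) h.2, hS', map_smul, hJ, smul_smul] at hCw
      have hκ := hscal _ hCw
      have ht : t = 0 := by rw [hc1] at hcase; linarith
      rw [hκ, ht, hc1]
      norm_num
    · have h := T2_pair hS' hw0 (sub_T hp hT w hmem) hcase
      rw [h.2, map_smul, hJ, smul_smul] at hCw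
      have hκ := hscal _ hCw
      have h1 := h.1
      push_cast at hc hcb
      have h2 : c ≤ -2 := by linarith
      have h3 : -2 ≤ c := by
        have := (abs_le.1 hcb).1
        linarith
      have h4 : c = -2 := le_antisymm h2 h3
      have ht : t = -3 := by rw [h4] at h1; linarith
      rw [hκ, ht, h4]
      norm_num
  | succ m ih =>
    intro S hS W hW hinv t κ hT hC hne
    have hSne : S.Nonempty := Finset.card_pos.1 (by omega)
    obtain ⟨p, hp, c, hc, w, hwW, hw0, hJ⟩ := exists_small_eig hρ hSne W hW hinv hT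
    have hS' : (S.erase p).card = m + 3 := by rw [Finset.card_erase_of_mem hp, hS]; rfl
    have hmem : w ∈ sub ρ W S p c := mem_sub.2 ⟨hwW, hJ⟩
    have hW' : sub ρ W S p c ≠ ⊥ := fun h => hw0 ((Submodule.eq_bot_iff _).1 h w hmem)
    have hm0 : (0 : ℝ) ≤ m := Nat.cast_nonneg m
    have hcb := J_eig_bound hρ hp hw0 hJ
    have hgap := spec_T hρ (m + 2) S (by omega) W hW hinv t hT (by
      push_cast at hne ⊢; intro h; apply hne; linarith)
    rw [hS] at hc hcb
    have hCw := C_insert (ρ := ρ) hp (by omega) w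
    rw [hC w hwW] at hCw
    have hscal : ∀ r : ℝ, κ • w = r • w → κ = r := by
      intro r hr
      have : (κ - r) • w = 0 := by rw [sub_smul, hr, sub_self]
      rcases smul_eq_zero.1 this with h6 | h6
      · linarith
      · exact absurd h6 hw0
    push_cast at hc hcb hne hgap ⊢
    have hF : (0 : ℝ) ≤ (m.factorial : ℝ) := Nat.cast_nonneg _
    have hf1 : (((m + 1).factorial : ℕ) : ℝ) = ((m : ℝ) + 1) * (m.factorial : ℝ) := by
      rw [Nat.factorial_succ]; push_cast; ring
    have hf2 : (((m + 1 + 1).factorial : ℕ) : ℝ)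
        = ((m : ℝ) + 2) * (((m : ℝ) + 1) * (m.factorial : ℝ)) := by
      rw [Nat.factorial_succ (m + 1)]; push_cast; rw [← hf1]; push_cast; ring
    by_cases hcase : 2 * (t - c) = ((m : ℝ) + 3) * (m + 2)
    · have h := case_fixed hρ hp hw0 hmem hT (by
          rw [hS]; push_cast; intro h; apply hne; linarith)
        (by rw [hS']; push_cast; rw [hcase]; ring)
      have hc1 := h.1
      rw [C_fixed (by omega) h.2, hS', map_smul, hJ, smul_smul] at hCw
      have hκ := hscal _ hCw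
      have e1 : m + 3 - 1 = m + 1 + 1 := rfl
      rw [e1, hf2, hc1] at hκ
      have ht : t = ((m : ℝ) + 4) * (m + 1) / 2 := by
        rw [hc1] at hcase; linarith
      rw [hκ, hf1, hf2, ht]
      have e2 : ((m : ℝ) + 1 + 3) * (m + 1) / 2 - (m + 4) * (m + 1) / 2 = 0 := by ring
      rw [e2]
      constructor
      · nlinarith
      · rw [zero_div]; nlinarith
    · have hgap' := spec_T hρ (m + 1) (S.erase p) (by omega) (sub ρ W S p c) hW' (sub_inv hinv)
        (t - c) (sub_T hp hT) (by push_cast; intro h; apply hcase; linarith)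
      push_cast at hgap'
      have hTb := T2_eig_bound hρ hw0 (sub_T hp hT w hmem)
      rw [hS'] at hTb
      push_cast at hTb
      have hTb' := (abs_le.1 hTb).1
      set u : ℝ := ((m : ℝ) + 1 + 3) * (m + 1) / 2 - t with hu
      set u' : ℝ := ((m : ℝ) + 3) * m / 2 - (t - c) with hu'
      have huu : u' = u - (((m : ℝ) + 4) - 2) + c := by rw [hu, hu']; ring
      have hu0 : 0 ≤ u := by rw [hu]; linarith
      have hu'0 : 0 ≤ u' := by rw [hu']; linarith
      have hcu : ((m : ℝ) + 4) * c ≤ ((m : ℝ) + 4) * (((m : ℝ) + 4) - 3) - 2 * u := by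
        rw [hu]; linarith
      rcases eq_or_ne c 0 with hc0 | hc0
      · have hκ : κ = 0 := by
          apply hscal
          rw [hCw, J_comm_C hp, hJ, hc0, zero_smul, map_zero]
        rw [hκ]
        rw [hc0] at huu
        constructor
        · rw [hf1]
          have : 0 ≤ ((m : ℝ) + 1) * (m.factorial : ℝ) * u' :=
            mul_nonneg (mul_nonneg (by linarith) hF) hu'0
          have e : u - ((m : ℝ) + 1 + 1) = u' := by rw [huu]; ring
          rw [e]
          linarith
        · have h1 : 0 ≤ u / ((m : ℝ) + 1 + 3) := div_nonneg hu0 (by linarith)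
          have h2 : (0 : ℝ) ≤ (((m + 1 + 1).factorial : ℕ) : ℝ) := Nat.cast_nonneg _
          have := mul_nonneg h2 (by linarith : 0 ≤ 1 + u / ((m : ℝ) + 1 + 3))
          linarith
      · have hC' : ∀ v ∈ sub ρ W S p c, C ρ (S.erase p) v = (κ / c) • v := by
          intro v hv
          rw [mem_sub] at hv
          have h1 := C_insert (ρ := ρ) hp (by omega) v
          rw [hC v hv.1, J_comm_C hp, hv.2, map_smul] at h1
          rw [div_eq_inv_mul, mul_smul, h1, smul_smul, inv_mul_cancel₀ hc0, one_smul]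
        obtain ⟨h1, h2⟩ := ih (S.erase p) hS' (sub ρ W S p c) hW' (sub_inv hinv) (t - c) (κ / c)
          (sub_T hp hT) hC' hcase
        have h1' : κ / c ≤ (m.factorial : ℝ) * (u' - (((m : ℝ) + 4) - 3)) := by
          refine h1.trans (le_of_eq ?_)
          rw [hu']; ring
        have h2' : -(κ / c) ≤ ((((m : ℝ) + 4) - 3) * (m.factorial : ℝ))
            * (1 + u' / (((m : ℝ) + 4) - 1)) := by
          refine h2.trans (le_of_eq ?_)
          rw [hf1, hu']
          have e : ((m : ℝ) + 4) - 1 = m + 3 := by ring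
          rw [e]; ring
        have hκc : c * (κ / c) = κ := by field_simp
        have hfin : c * (κ / c) ≤ ((((m : ℝ) + 4) - 3) * (m.factorial : ℝ))
            * (u - (((m : ℝ) + 4) - 2)) ∧
            -(c * (κ / c)) ≤ ((((m : ℝ) + 4) - 2) * ((((m : ℝ) + 4) - 3) * (m.factorial : ℝ)))
              * (1 + u / ((m : ℝ) + 4)) := by
          rcases le_total 0 c with h0 | h0
          · exact arith_pos (by linarith) hF hu'0 h0 hcu hu0 huu h1' h2'
          · refine arith_neg (by linarith) hF hu'0 h0 ?_ ?_ huu h1' h2'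
            · have := (abs_le.1 hcb).1
              linarith
            · rw [hu']; nlinarith
        rw [hκc] at hfin
        obtain ⟨h3, h4⟩ := hfin
        refine ⟨h3.trans (le_of_eq ?_), h4.trans (le_of_eq ?_)⟩
        · rw [hf1]; ring
        · rw [hf2]
          have e : (m : ℝ) + 1 + 3 = m + 4 := by ring
          rw [e]; ring

theorem spec_bound (hρ : ∀ (σ : Perm α) (u v : V), ⟪ρ σ u, ρ σ v⟫_ℝ = ⟪u, v⟫_ℝ) :
    ∀ (k : ℕ), 3 ≤ k → ∀ (S : Finset α), S.card = k → ∀ (W : Submodule ℝ V), W ≠ ⊥ →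
      (∀ x ∈ S, ∀ y ∈ S, ∀ w ∈ W, ρ (Equiv.swap x y) w ∈ W) →
      ∀ (t κ : ℝ), (∀ w ∈ W, T2 ρ S w = (2 * t) • w) → (∀ w ∈ W, C ρ S w = κ • w) →
      2 * t ≠ k * (k - 1) →
      2 * t ≤ k * (k - 3) ∧
      κ ≤ (k - 3).factorial * (k * (k - 3) / 2 - t - (k - 2)) ∧
      -κ ≤ (k - 2).factorial * (1 + (k * (k - 3) / 2 - t) / k) := by
  intro k hk S hS W hW hinv t κ hT hC hne
  obtain ⟨m, rfl⟩ : ∃ m, k = m + 3 := ⟨k - 3, by omega⟩
  have e1 : m + 3 - 3 = m := by omega
  have e2 : m + 3 - 2 = m + 1 := by omega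
  rw [e1, e2]
  push_cast at hne ⊢
  have h1 := spec_T hρ (m + 1) S (by omega) W hW hinv t hT (by
    push_cast; intro h; apply hne; linarith)
  have h2 := spec_bound_aux hρ m S hS W hW hinv t κ hT hC (by
    intro h; apply hne; linarith)
  push_cast at h1
  refine ⟨by linarith, h2.1.trans (le_of_eq ?_), h2.2.trans (le_of_eq ?_)⟩
  · ring
  · ring

end Pool.H98.BE
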