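import Pool.Agent.H98.BE.Cyc

set_option autoImplicit false

/-!
# The counting inequality for row-Hamiltonian Latin squares
-/

open Finset Equiv

namespace Pool.H98.BE

/-- `D` consists of `n` permutations of `n` points such that the quotient of any two different ones
is a full cycle (the rows of a row-Hamiltonian Latin square). -/
def RowHam {α : Type*} [Fintype α] [DecidableEq α] (D : Finset (Perm α)) : Prop :=
  D.card = Fintype.card α ∧ ∀ a ∈ D, ∀ b ∈ D, a ≠ b → a⁻¹ * b ∈ cyc (univ : Finset α)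

variable {n : ℕ}

/-- the sum over the conjugates of a full cycle -/
private theorem sum_conj_cyc (hn2 : 2 ≤ n) (F : Perm (Fin n) → ℤ) {q : Perm (Fin n)}
    (hq : q ∈ cyc (univ : Finset (Fin n))) :
    ∑ g : Perm (Fin n), F (g⁻¹ * q * g) = n * ∑ σ ∈ cyc (univ : Finset (Fin n)), F σ := by
  have hcard : (cyc (univ : Finset (Fin n))).card = (n - 1).factorial := by
    rw [card_cyc (by rw [card_univ, Fintype.card_fin]; omega), card_univ, Fintype.card_fin]
  -- the sum does not depend on the full cycle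
  have hconst : ∀ q' ∈ cyc (univ : Finset (Fin n)),
      ∑ g : Perm (Fin n), F (g⁻¹ * q' * g) = ∑ g : Perm (Fin n), F (g⁻¹ * q * g) := by
    intro q' hq'
    have h1 := mem_cyc.1 hq
    have h2 := mem_cyc.1 hq'
    have hconj : IsConj q q' := Equiv.Perm.IsCycle.isConj h1.1 h2.1 (by rw [h1.2, h2.2])
    obtain ⟨h, hh⟩ := isConj_iff.1 hconj
    rw [← Equiv.sum_comp (Equiv.mulLeft h) (fun g => F (g⁻¹ * q' * g))]
    refine Finset.sum_congr rfl fun g _ => ?_
    congr 1
    rw [Equiv.coe_mulLeft, ← hh]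
    group
  have hcyc : ∀ g : Perm (Fin n), ∑ q' ∈ cyc (univ : Finset (Fin n)), F (g⁻¹ * q' * g) =
      ∑ σ ∈ cyc (univ : Finset (Fin n)), F σ := by
    intro g
    refine Finset.sum_bij' (fun q' _ => g⁻¹ * q' * g) (fun q' _ => g * q' * g⁻¹) ?_ ?_ ?_ ?_ ?_
    · intro q' hq'
      have := conj_mem_cyc (τ := g⁻¹) hq' (fun x => by simp)
      rwa [inv_inv] at this
    · intro q' hq'
      exact conj_mem_cyc (τ := g) hq' (fun x => by simp)
    · intro q' _
      group
    · intro q' _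
      group
    · intro q' _
      rfl
  have htot : ∑ q' ∈ cyc (univ : Finset (Fin n)), ∑ g : Perm (Fin n), F (g⁻¹ * q' * g) =
      ((n - 1).factorial : ℤ) * ∑ g : Perm (Fin n), F (g⁻¹ * q * g) := by
    rw [Finset.sum_congr rfl hconst, sum_const, hcard, nsmul_eq_mul]
  rw [Finset.sum_comm, Finset.sum_congr rfl (fun g _ => hcyc g), sum_const, card_univ,
    Fintype.card_perm, Fintype.card_fin, nsmul_eq_mul] at htot
  have hfac : (n.factorial : ℤ) = (n - 1).factorial * n := by
    rw [mul_comm]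
    exact_mod_cast (Nat.mul_factorial_pred (by omega : n ≠ 0)).symm
  rw [hfac, mul_assoc] at htot
  exact (mul_left_cancel₀ (by exact_mod_cast Nat.factorial_ne_zero _) htot).symm

theorem cyc_count_design (hn3 : 3 ≤ n) {D : Finset (Perm (Fin n))} (hD : RowHam D)
    (f : Perm (Fin n) → ℤ) (c : ℤ) :
    ((n - 2).factorial : ℤ) * ((2 * c + 1) * ∑ τ, f τ - ∑ τ, f τ ^ 2
        - c * (c + 1) * ((n - 1).factorial : ℤ))
      ≤ ∑ σ ∈ cyc (univ : Finset (Fin n)), ∑ τ, f τ * f (τ * σ) := by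
  have hDc : D.card = n := by rw [hD.1, Fintype.card_fin]
  set X : ℤ := ∑ σ ∈ cyc (univ : Finset (Fin n)), ∑ τ, f τ * f (τ * σ) with hX
  set F : Perm (Fin n) → ℤ := fun q => ∑ τ, f τ * f (τ * q) with hF
  set N : Perm (Fin n) → Perm (Fin n) → ℤ := fun g s => ∑ d ∈ D, f (s * (g⁻¹ * d * g)) with hN
  have hsum : ∀ (g : Perm (Fin n) → ℤ) (σ : Perm (Fin n)), ∑ s, g (s * σ) = ∑ s, g s :=
    fun g σ => Equiv.sum_comp (Equiv.mulRight σ) g
  have h1 : ∀ g, ∑ s, N g s = n * ∑ s, f s := by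
    intro g
    simp only [hN]
    rw [sum_comm]
    have e1 : ∀ d ∈ D, ∑ s, f (s * (g⁻¹ * d * g)) = ∑ s, f s := fun d _ => hsum f _
    rw [sum_congr rfl e1, sum_const, hDc, nsmul_eq_mul]
  -- the correlations
  have hcor : ∀ x y : Perm (Fin n), ∑ s, f (s * x) * f (s * y) = F (x⁻¹ * y) := by
    intro x y
    rw [← hsum (fun s => f (s * x) * f (s * y)) x⁻¹]
    simp only [hF]
    refine sum_congr rfl fun s _ => ?_
    rw [inv_mul_cancel_right, mul_assoc s x⁻¹ y]
  have h2 : ∑ g, ∑ s, N g s ^ 2 =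
      n * (n.factorial * ∑ τ, f τ ^ 2) + n * ((n : ℤ) - 1) * (n * X) := by
    have e1 : ∀ g, ∑ s, N g s ^ 2 = ∑ a ∈ D, ∑ b ∈ D, F (g⁻¹ * (a⁻¹ * b) * g) := by
      intro g
      have e2 : ∀ s, N g s ^ 2 =
          ∑ a ∈ D, ∑ b ∈ D, f (s * (g⁻¹ * a * g)) * f (s * (g⁻¹ * b * g)) := by
        intro s
        rw [sq]
        simp only [hN]
        rw [sum_mul_sum]
      simp only [e2]
      rw [sum_comm]
      refine sum_congr rfl fun a _ => ?_
      rw [sum_comm]
      refine sum_congr rfl fun b _ => ?_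
      rw [hcor]
      congr 1
      group
    simp only [e1]
    rw [sum_comm]
    have e3 : ∀ a ∈ D, ∑ g : Perm (Fin n), ∑ b ∈ D, F (g⁻¹ * (a⁻¹ * b) * g) =
        n.factorial * ∑ τ, f τ ^ 2 + ((n : ℤ) - 1) * (n * X) := by
      intro a ha
      rw [sum_comm, ← Finset.add_sum_erase D _ ha]
      congr 1
      · have e4 : ∀ g : Perm (Fin n), F (g⁻¹ * (a⁻¹ * a) * g) = ∑ τ, f τ ^ 2 := by
          intro g
          rw [inv_mul_cancel, mul_one, inv_mul_cancel]
          simp only [hF, mul_one, sq]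
        simp only [e4]
        rw [sum_const, card_univ, Fintype.card_perm, Fintype.card_fin, nsmul_eq_mul]
      · have e5 : ∀ b ∈ D.erase a, ∑ g : Perm (Fin n), F (g⁻¹ * (a⁻¹ * b) * g) = n * X := by
          intro b hb
          obtain ⟨hne, hbD⟩ := Finset.mem_erase.1 hb
          exact sum_conj_cyc (by omega) F (hD.2 a ha b hbD hne.symm)
        rw [sum_congr rfl e5, sum_const, card_erase_of_mem ha, hDc, nsmul_eq_mul]
        push_cast [Nat.cast_sub (by omega : 1 ≤ n)]
        ring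
    rw [sum_congr rfl e3, sum_const, hDc, nsmul_eq_mul]
    ring
  have h3 : 0 ≤ ∑ g, ∑ s, (N g s - c) * (N g s - c - 1) := by
    refine sum_nonneg fun g _ => sum_nonneg fun s _ => ?_
    rcases le_or_gt (N g s - c) 0 with h | h
    · exact mul_nonneg_of_nonpos_of_nonpos h (by linarith)
    · exact mul_nonneg h.le (by omega)
  have h4 : ∑ g : Perm (Fin n), ∑ s : Perm (Fin n), (N g s - c) * (N g s - c - 1) =
      ∑ g, ∑ s, N g s ^ 2 - (2 * c + 1) * (n.factorial * (n * ∑ s, f s)) +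
        c * (c + 1) * ((n.factorial : ℤ) * n.factorial) := by
    have e1 : ∀ g s, (N g s - c) * (N g s - c - 1) =
        N g s ^ 2 - (2 * c + 1) * N g s + c * (c + 1) := fun g s => by ring
    simp only [e1]
    simp only [sum_add_distrib, sum_sub_distrib, ← mul_sum, h1, sum_const, card_univ,
      Fintype.card_perm, Fintype.card_fin, nsmul_eq_mul]
    ring
  rw [h4, h2] at h3
  obtain ⟨m, rfl⟩ : ∃ m, n = m + 2 := ⟨n - 2, by omega⟩
  have e2 : m + 2 - 2 = m := by omega
  have e3 : m + 2 - 1 = m + 1 := by omega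
  rw [e2, e3]
  have e4 : ((m + 1).factorial : ℤ) = (m + 1) * m.factorial := by
    rw [Nat.factorial_succ]
    push_cast
    ring
  have e5 : ((m + 2).factorial : ℤ) = (m + 2) * ((m + 1) * m.factorial) := by
    rw [Nat.factorial_succ, Nat.factorial_succ]
    push_cast
    ring
  have h7 : 0 ≤ (((m : ℤ) + 2) ^ 2 * (m + 1)) * (X - (m.factorial : ℤ) *
      ((2 * c + 1) * ∑ τ, f τ - ∑ τ, f τ ^ 2 - c * (c + 1) * ((m + 1).factorial : ℤ))) := by
    calc (0 : ℤ) ≤ _ := h3
      _ = _ := by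
        rw [e4, e5]
        push_cast
        ring
  have h8 := (mul_nonneg_iff_of_pos_left (by positivity)).1 h7
  linarith

end Pool.H98.BE
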