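import Mathlib

set_option autoImplicit false

/-!
# Cycles with a prescribed support
-/

open Finset Equiv

namespace Pool.H98.BE

variable {α : Type*} [Fintype α] [DecidableEq α]

open scoped Classical in
/-- the cycles whose support is exactly `S` -/
noncomputable def cyc (S : Finset α) : Finset (Perm α) :=
  univ.filter (fun σ => σ.IsCycle ∧ σ.support = S)

lemma mem_cyc {S : Finset α} {σ : Perm α} : σ ∈ cyc S ↔ σ.IsCycle ∧ σ.support = S := by
  simp [cyc]

/-- the only cycle supported on a pair is the transposition -/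
theorem cyc_pair {x y : α} (h : x ≠ y) : cyc ({x, y} : Finset α) = {Equiv.swap x y} := by
  ext σ
  rw [mem_cyc, mem_singleton]
  constructor
  · rintro ⟨h1, h2⟩
    have h3 : σ.support.card = 2 := by rw [h2, card_pair h]
    obtain ⟨a, b, hab, rfl⟩ := Perm.card_support_eq_two.1 h3
    rw [Perm.support_swap hab] at h2
    have ha : a ∈ ({x, y} : Finset α) := by rw [← h2]; simp
    have hb : b ∈ ({x, y} : Finset α) := by rw [← h2]; simp
    rw [mem_insert, mem_singleton] at ha hb
    rcases ha with rfl | rfl <;> rcases hb with rfl | rfl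
    · exact absurd rfl hab
    · rfl
    · exact Equiv.swap_comm _ _
    · exact absurd rfl hab
  · rintro rfl
    exact ⟨Perm.isCycle_swap h, Perm.support_swap h⟩

/-- inserting a point in a cycle -/
private theorem cyc_insert_mem {T : Finset α} {p q : α} {s : Perm α} (hs : s ∈ cyc T) (hp : p ∉ T)
    (hq : q ∈ T) : Equiv.swap p q * s ∈ cyc (insert p T) ∧ (Equiv.swap p q * s) p = q := by
  rw [mem_cyc] at hs
  obtain ⟨hs1, hs2⟩ := hs
  have hT : ∀ z, z ∈ T ↔ s z ≠ z := by
    intro z
    rw [← hs2, Perm.mem_support]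
  have hsT : ∀ z, s z ∈ T ↔ z ∈ T := by
    intro z
    rw [← hs2, Perm.apply_mem_support]
  have hpq : p ≠ q := fun h => hp (h ▸ hq)
  have hsp : s p = p := by
    by_contra h
    exact hp ((hT p).2 h)
  have hσp : (Equiv.swap p q * s) p = q := by
    rw [Perm.mul_apply, hsp, Equiv.swap_apply_left]
  have hσ1 : ∀ z, s z = q → (Equiv.swap p q * s) z = p := by
    intro z hz
    rw [Perm.mul_apply, hz, Equiv.swap_apply_right]
  have hσ2 : ∀ z, s z ≠ q → z ≠ p → (Equiv.swap p q * s) z = s z := by
    intro z hz hzp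
    rw [Perm.mul_apply]
    apply Equiv.swap_apply_of_ne_of_ne _ hz
    intro h
    apply hzp
    apply s.injective
    rw [h, hsp]
  have hsame : ∀ k : ℕ, (Equiv.swap p q * s).SameCycle q ((s ^ k) q) := by
    intro k
    induction k with
    | zero => exact Perm.SameCycle.refl _ _
    | succ k ih =>
      have e : (s ^ (k + 1)) q = s ((s ^ k) q) := by rw [pow_succ', Perm.mul_apply]
      rw [e]
      by_cases h1 : s ((s ^ k) q) = q
      · rw [h1]
      · have h2 : (s ^ k) q ≠ p := by
          intro h3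
          apply hp
          rw [← h3, ← hs2, Perm.pow_apply_mem_support, hs2]
          exact hq
        rw [← hσ2 _ h1 h2, Perm.sameCycle_apply_right]
        exact ih
  have hσq : (Equiv.swap p q * s) q ≠ q := by
    have h1 := (hT q).1 hq
    rw [hσ2 q h1 hpq.symm]
    exact h1
  refine ⟨?_, hσp⟩
  rw [mem_cyc]
  constructor
  · refine ⟨q, hσq, fun y hy => ?_⟩
    by_cases hyp : y = p
    · subst hyp
      have : (Equiv.swap y q * s).SameCycle y q := by
        have h1 := (Perm.SameCycle.refl (Equiv.swap y q * s) y)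
        rw [← Perm.sameCycle_apply_right, hσp] at h1
        exact h1
      exact this.symm
    · have h1 : s y ≠ y := by
        intro h1
        by_cases h2 : y = q
        · subst h2
          exact (hT y).1 hq h1
        · apply hy
          rw [Perm.mul_apply, h1]
          exact Equiv.swap_apply_of_ne_of_ne hyp h2
      obtain ⟨i, hi⟩ := hs1.exists_pow_eq ((hT q).1 hq) h1
      rw [← hi]
      exact hsame i
  · ext z
    rw [Perm.mem_support, mem_insert, hT z]
    by_cases hzp : z = p
    · subst hzp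
      rw [hσp]
      exact ⟨fun _ => Or.inl rfl, fun _ => hpq.symm⟩
    · by_cases hz : s z = z
      · have hzq : z ≠ q := by
          rintro rfl
          exact (hT z).1 hq hz
        have h1 : (Equiv.swap p q * s) z = z := by
          rw [Perm.mul_apply, hz]
          exact Equiv.swap_apply_of_ne_of_ne hzp hzq
        constructor
        · intro h2
          exact absurd h1 h2
        · rintro (h2 | h2)
          · exact absurd h2 hzp
          · exact absurd hz h2
      · refine ⟨fun _ => Or.inr hz, fun _ => ?_⟩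
        by_cases h1 : s z = q
        · rw [hσ1 z h1]
          exact fun h => hzp h.symm
        · rw [hσ2 z h1 hzp]
          exact hz

/-- every cycle with support `S` arises in exactly one way by inserting `p` in a cycle with
support `S.erase p` -/
theorem sum_cyc_insert {M : Type*} [AddCommMonoid M] {S : Finset α} {p : α} (hp : p ∈ S)
    (hS : 3 ≤ S.card) (g : Perm α → M) :
    ∑ σ ∈ cyc S, g σ
      = ∑ q ∈ S.erase p, ∑ σ ∈ cyc (S.erase p), g (Equiv.swap p q * σ) := by
  rw [← Finset.sum_product']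
  refine Finset.sum_bij' (fun σ _ => (σ p, Equiv.swap p (σ p) * σ))
    (fun x _ => Equiv.swap p x.1 * x.2) ?_ ?_ ?_ ?_ ?_
  · intro σ hσ
    rw [mem_cyc] at hσ
    obtain ⟨h1, h2⟩ := hσ
    have h3 : σ p ≠ p := by
      rw [← Perm.mem_support, h2]
      exact hp
    have h4 : σ (σ p) ≠ p := by
      intro h4
      have h5 := h1.eq_swap_of_apply_apply_eq_self h3 h4
      have h6 : σ.support.card = 2 := by
        rw [h5]
        exact Perm.card_support_swap h3.symm
      rw [h2] at h6
      omega
    rw [mem_product]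
    constructor
    · rw [mem_erase]
      refine ⟨h3, ?_⟩
      rw [← h2, Perm.apply_mem_support, h2]
      exact hp
    · rw [mem_cyc]
      refine ⟨h1.swap_mul h3 h4, ?_⟩
      rw [Perm.support_swap_mul_eq _ _ h4, h2, sdiff_singleton_eq_erase]
  · intro x hx
    rw [mem_product] at hx
    have h1 := (cyc_insert_mem hx.2 (notMem_erase p S) hx.1).1
    rwa [insert_erase hp] at h1
  · intro σ _
    rw [← mul_assoc, Equiv.swap_mul_self, one_mul]
  · intro x hx
    rw [mem_product] at hx
    have h1 := (cyc_insert_mem hx.2 (notMem_erase p S) hx.1).2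
    rw [h1, ← mul_assoc, Equiv.swap_mul_self, one_mul]
  · intro σ _
    rw [← mul_assoc, Equiv.swap_mul_self, one_mul]

theorem card_cyc {S : Finset α} (hS : 2 ≤ S.card) : (cyc S).card = (S.card - 1).factorial := by
  obtain ⟨m, hm⟩ : ∃ m, m + 2 = S.card := ⟨S.card - 2, by omega⟩
  induction m generalizing S with
  | zero =>
    obtain ⟨x, y, hxy, rfl⟩ := card_eq_two.1 (by omega : S.card = 2)
    rw [cyc_pair hxy, card_singleton, card_pair hxy]
    rfl
  | succ m ih =>
    obtain ⟨p, hp⟩ : S.Nonempty := card_pos.1 (by omega)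
    have h1 := sum_cyc_insert hp (by omega) (fun _ => 1)
    have h2 : (S.erase p).card = m + 2 := by rw [card_erase_of_mem hp]; omega
    rw [← card_eq_sum_ones, ← card_eq_sum_ones, sum_const, smul_eq_mul,
      ih (by omega) h2.symm, h2] at h1
    rw [h1, ← hm]
    have e1 : m + 1 + 2 - 1 = m + 2 := by omega
    have e2 : m + 2 - 1 = m + 1 := by omega
    rw [e1, e2, Nat.factorial_succ (m + 1)]

/-- conjugation by a permutation preserving `S` permutes the cycles with support `S` -/
theorem conj_mem_cyc {S : Finset α} {σ τ : Perm α} (hσ : σ ∈ cyc S) (hτ : ∀ x, τ x ∈ S ↔ x ∈ S) :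
    τ * σ * τ⁻¹ ∈ cyc S := by
  rw [mem_cyc] at hσ ⊢
  refine ⟨hσ.1.conj, ?_⟩
  ext x
  rw [Perm.mem_support, Perm.mul_apply, Perm.mul_apply]
  have h1 : τ (σ (τ⁻¹ x)) ≠ x ↔ σ (τ⁻¹ x) ≠ τ⁻¹ x := by
    rw [not_iff_not]
    constructor
    · intro h
      apply τ.injective
      rw [h]
      exact (Equiv.apply_symm_apply τ x).symm
    · intro h
      rw [h]
      exact Equiv.apply_symm_apply τ x
  rw [h1, ← Perm.mem_support, hσ.2, ← hτ (τ⁻¹ x)]
  have h2 : τ (τ⁻¹ x) = x := Equiv.apply_symm_apply τ x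
  rw [h2]

theorem inv_mem_cyc {S : Finset α} {σ : Perm α} (hσ : σ ∈ cyc S) : σ⁻¹ ∈ cyc S := by
  rw [mem_cyc] at hσ ⊢
  exact ⟨hσ.1.inv, by rw [Perm.support_inv]; exact hσ.2⟩

private theorem cyc_pow_mem (hn : (Fintype.card α).Prime) {j : ℕ}
    (hj : 0 < j) (hj' : j < Fintype.card α) {σ : Perm α} (hσ : σ ∈ cyc (univ : Finset α)) :
    σ ^ j ∈ cyc (univ : Finset α) := by
  rw [mem_cyc] at hσ ⊢
  have h1 : orderOf σ = Fintype.card α := by
    rw [hσ.1.orderOf, hσ.2, card_univ]
  refine ⟨hσ.1.isCycle_pow_pos_of_lt_prime_order (h1 ▸ hn) j hj (h1 ▸ hj'), ?_⟩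
  rw [hσ.1.support_pow_of_pos_of_lt_orderOf hj (h1 ▸ hj'), hσ.2]

/-- if the number of points is prime, then the powers `σ ^ j`, `0 < j < n`, of a full cycle are full
cycles, and `σ ↦ σ ^ j` permutes the full cycles -/
theorem sum_cyc_pow {M : Type*} [AddCommMonoid M] (hn : (Fintype.card α).Prime) {j : ℕ}
    (hj : 0 < j) (hj' : j < Fintype.card α) (g : Perm α → M) :
    ∑ σ ∈ cyc (univ : Finset α), g (σ ^ j) = ∑ σ ∈ cyc (univ : Finset α), g σ := by
  have hcop : Nat.Coprime j (Fintype.card α) := by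
    rw [Nat.coprime_comm, Nat.Prime.coprime_iff_not_dvd hn]
    exact Nat.not_dvd_of_pos_of_lt hj hj'
  obtain ⟨m, -, hm⟩ := Nat.exists_mul_mod_eq_one_of_coprime hcop hn.one_lt
  have hm1 : j * (m % Fintype.card α) % Fintype.card α = 1 := by
    rw [Nat.mul_mod, Nat.mod_mod, ← Nat.mul_mod, hm]
  have hm0 : 0 < m % Fintype.card α := by
    rcases Nat.eq_zero_or_pos (m % Fintype.card α) with h | h
    · rw [h, mul_zero, Nat.zero_mod] at hm1
      exact absurd hm1 (by norm_num)
    · exact h
  have hm2 : m % Fintype.card α < Fintype.card α := Nat.mod_lt _ hn.pos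
  have hpow : ∀ σ ∈ cyc (univ : Finset α), σ ^ (j * (m % Fintype.card α)) = σ := by
    intro σ hσ
    rw [mem_cyc] at hσ
    have h1 : orderOf σ = Fintype.card α := by
      rw [hσ.1.orderOf, hσ.2, card_univ]
    have h2 : σ ^ (j * (m % Fintype.card α)) = σ ^ 1 := by
      rw [pow_eq_pow_iff_modEq, h1, Nat.ModEq, hm1, Nat.mod_eq_of_lt hn.one_lt]
    rw [h2, pow_one]
  refine Finset.sum_bij' (fun σ _ => σ ^ j) (fun σ _ => σ ^ (m % Fintype.card α)) ?_ ?_ ?_ ?_ ?_
  · intro σ hσ
    exact cyc_pow_mem hn hj hj' hσ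
  · intro σ hσ
    exact cyc_pow_mem hn hm0 hm2 hσ
  · intro σ hσ
    rw [← pow_mul, hpow σ hσ]
  · intro σ hσ
    rw [← pow_mul, mul_comm, hpow σ hσ]
  · intro σ _
    rfl

end Pool.H98.BE
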