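import Pool.Agent.H98.BE.CountD

set_option autoImplicit false

/-!
# Row-Hamiltonian Latin squares of prime order and of order `2 p - 1`
-/

open Finset Equiv

namespace Pool.H98.BE

section General

variable {α : Type*} [Fintype α] [DecidableEq α]

private theorem mem_cyc_univ_of {σ : Perm α} [Nontrivial α] (x : α)
    (h : ∀ y, σ.SameCycle x y) : σ ∈ cyc (univ : Finset α) := by
  have hx : σ x ≠ x := by
    intro hx
    obtain ⟨y, hy⟩ := exists_ne x
    obtain ⟨k, hk⟩ := h y
    rw [Perm.zpow_apply_eq_self_of_apply_eq_self hx] at hk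
    exact hy hk.symm
  rw [mem_cyc]
  refine ⟨⟨x, hx, fun y _ => h y⟩, ?_⟩
  ext y
  simp only [Perm.mem_support, mem_univ, iff_true]
  intro hy
  obtain ⟨k, hk⟩ := (h y).symm
  rw [Perm.zpow_apply_eq_self_of_apply_eq_self hy] at hk
  subst hk
  exact hx hy

private theorem sameCycle_of_mem_cyc_univ {σ : Perm α} (h : σ ∈ cyc (univ : Finset α)) (x y : α) :
    σ.SameCycle x y := by
  rw [mem_cyc] at h
  have hs : ∀ z, σ z ≠ z := by
    intro z
    rw [← Perm.mem_support, h.2]
    exact mem_univ z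
  exact h.1.sameCycle (hs x) (hs y)

private theorem nontrivial_of_mem_cyc_univ {σ : Perm α} (h : σ ∈ cyc (univ : Finset α)) :
    Nontrivial α := by
  rw [mem_cyc] at h
  obtain ⟨x, hx, -⟩ := h.1
  exact ⟨⟨σ x, x, hx⟩⟩

end General

/-- transport along a bijection -/
theorem RowHam.congr {α β : Type*} [Fintype α] [DecidableEq α] [Fintype β] [DecidableEq β]
    (e : α ≃ β) {D : Finset (Perm α)} (hD : RowHam D) : ∃ D' : Finset (Perm β), RowHam D' := by
  refine ⟨D.map (e.permCongr).toEmbedding, ?_, ?_⟩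
  · rw [card_map, hD.1, Fintype.card_congr e]
  · intro a ha b hb hab
    rw [mem_map] at ha hb
    obtain ⟨a, ha, rfl⟩ := ha
    obtain ⟨b, hb, rfl⟩ := hb
    have hab' : a ≠ b := by
      rintro rfl
      exact hab rfl
    have h1 := hD.2 a ha b hb hab'
    have hnt := nontrivial_of_mem_cyc_univ h1
    have h2 : (e.permCongr.toEmbedding a)⁻¹ * (e.permCongr.toEmbedding b)
        = e.permCongr (a⁻¹ * b) := by
      have h4 : e.permCongrHom (a⁻¹ * b) = (e.permCongrHom a)⁻¹ * e.permCongrHom b := by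
        rw [map_mul, map_inv]
      exact h4.symm
    rw [h2]
    have : Nontrivial β := e.injective.nontrivial
    obtain ⟨x, -⟩ := exists_pair_ne α
    refine mem_cyc_univ_of (e x) (fun y => ?_)
    obtain ⟨k, hk⟩ := sameCycle_of_mem_cyc_univ h1 x (e.symm y)
    refine ⟨k, ?_⟩
    have h3 : (e.permCongr (a⁻¹ * b)) ^ k = e.permCongr ((a⁻¹ * b) ^ k) := by
      exact (map_zpow (e.permCongrHom) (a⁻¹ * b) k).symm
    rw [h3, Equiv.permCongr_apply, Equiv.symm_apply_apply, hk, Equiv.apply_symm_apply]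

theorem exists_rowHam_prime {n : ℕ} (hn : n.Prime) :
    ∃ D : Finset (Perm (Fin n)), RowHam D := by
  obtain ⟨m, rfl⟩ : ∃ m, n = m + 2 := ⟨n - 2, by have := hn.two_le; omega⟩
  have hcyc : (finRotate (m + 2)).IsCycle := isCycle_finRotate
  have hsup : (finRotate (m + 2)).support = univ := support_finRotate
  have hord : orderOf (finRotate (m + 2)) = m + 2 := by
    rw [hcyc.orderOf, hsup, card_univ, Fintype.card_fin]
  have hpow : ∀ j, 0 < j → j < m + 2 → (finRotate (m + 2)) ^ j ∈ cyc (univ : Finset (Fin (m + 2))) := by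
    intro j hj hj'
    rw [mem_cyc]
    refine ⟨hcyc.isCycle_pow_pos_of_lt_prime_order (by rw [hord]; exact hn) j hj
      (by rw [hord]; exact hj'), ?_⟩
    rw [hcyc.support_pow_of_pos_of_lt_orderOf hj (by rw [hord]; exact hj'), hsup]
  have hquot : ∀ i j, i < j → j < m + 2 →
      ((finRotate (m + 2)) ^ i)⁻¹ * (finRotate (m + 2)) ^ j ∈ cyc (univ : Finset (Fin (m + 2))) := by
    intro i j hij hj
    have h1 : ((finRotate (m + 2)) ^ i)⁻¹ * (finRotate (m + 2)) ^ j
        = (finRotate (m + 2)) ^ (j - i) := by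
      rw [inv_mul_eq_iff_eq_mul, ← pow_add]
      congr 1
      omega
    rw [h1]
    exact hpow _ (by omega) (by omega)
  refine ⟨(range (m + 2)).image (fun i => (finRotate (m + 2)) ^ i), ?_, ?_⟩
  · rw [card_image_of_injOn, card_range, Fintype.card_fin]
    intro i hi j hj hij
    rw [mem_coe, mem_range] at hi hj
    have := pow_inj_mod.1 hij
    rw [hord, Nat.mod_eq_of_lt hi, Nat.mod_eq_of_lt hj] at this
    exact this
  · intro a ha b hb hab
    rw [mem_image] at ha hb
    obtain ⟨i, hi, rfl⟩ := ha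
    obtain ⟨j, hj, rfl⟩ := hb
    rw [mem_range] at hi hj
    rcases lt_trichotomy i j with h | h | h
    · exact hquot i j h hj
    · subst h
      exact absurd rfl hab
    · have h1 := inv_mem_cyc (hquot j i h hi)
      rwa [mul_inv_rev, inv_inv] at h1

/-! ### Deleting a point from fixed point free involutions -/

section Delete

variable {V : Type*} [DecidableEq V]

private theorem pi_invol (z : V) (μ : V → V) (hμ : Function.Involutive μ)
    (x : {x : V // x ≠ z}) :
    (fun x : {x : V // x ≠ z} => if h : μ x.1 = z then x else (⟨μ x.1, h⟩ : {x : V // x ≠ z}))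
      ((fun x : {x : V // x ≠ z} => if h : μ x.1 = z then x else (⟨μ x.1, h⟩ : {x : V // x ≠ z})) x)
      = x := by
  by_cases h : μ x.1 = z
  · simp [h]
  · have h2 : μ (μ x.1) ≠ z := by rw [hμ]; exact x.2
    simp only [h, dite_false, h2]
    exact Subtype.ext (hμ x.1)

/-- the involution with the point `z` deleted -/
private def piInv (z : V) (μ : V → V) (hμ : Function.Involutive μ) : Perm {x : V // x ≠ z} :=
  Function.Involutive.toPerm
    (fun x : {x : V // x ≠ z} => if h : μ x.1 = z then x else (⟨μ x.1, h⟩ : {x : V // x ≠ z}))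
    (pi_invol z μ hμ)

private theorem piInv_of_eq {z : V} {μ : V → V} (hμ : Function.Involutive μ) {x : {x : V // x ≠ z}}
    (h : μ x.1 = z) : piInv z μ hμ x = x := by
  simp [piInv, h]

private theorem piInv_of_ne {z : V} {μ : V → V} (hμ : Function.Involutive μ) {x : {x : V // x ≠ z}}
    (h : μ x.1 ≠ z) : (piInv z μ hμ x).1 = μ x.1 := by
  simp [piInv, h]

private theorem piInv_piInv {z : V} {μ : V → V} (hμ : Function.Involutive μ)
    (x : {x : V // x ≠ z}) : piInv z μ hμ (piInv z μ hμ x) = x := pi_invol z μ hμ x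

private theorem piInv_mul_self {z : V} {μ : V → V} (hμ : Function.Involutive μ) :
    piInv z μ hμ * piInv z μ hμ = 1 := by
  ext x
  rw [Perm.mul_apply, piInv_piInv, Perm.one_apply]

private theorem piInv_inv {z : V} {μ : V → V} (hμ : Function.Involutive μ) :
    (piInv z μ hμ)⁻¹ = piInv z μ hμ := by
  rw [inv_eq_iff_mul_eq_one]
  exact piInv_mul_self hμ

omit [DecidableEq V] in
private theorem even_card_of_invol {s : Finset V} {μ : V → V} (hμ : Function.Involutive μ)
    (hf : ∀ v, μ v ≠ v) (hs : ∀ v ∈ s, μ v ∈ s) : Even s.card := by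
  have h1 : ∑ x ∈ s, (1 : ZMod 2) = 0 := by
    refine Finset.sum_involution (fun a _ => μ a) ?_ ?_ ?_ ?_
    · intro a _
      decide
    · intro a _ _
      exact hf a
    · intro a ha
      exact hs a ha
    · intro a _
      exact hμ a
  rw [Finset.sum_const, nsmul_eq_mul, mul_one] at h1
  rw [even_iff_two_dvd]
  exact (ZMod.natCast_eq_zero_iff _ _).1 h1

private theorem pi_full [Fintype V] (z : V) {μ ν : V → V} (hμ : Function.Involutive μ)
    (hν : Function.Involutive ν) (hfμ : ∀ v, μ v ≠ v) (hfν : ∀ v, ν v ≠ v)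
    [Nontrivial {x : V // x ≠ z}]
    (hO : ∀ O : Set V, (∀ v ∈ O, μ v ∈ O) → (∀ v ∈ O, ν v ∈ O) → O.Nonempty → ∀ v, v ∈ O) :
    piInv z μ hμ * piInv z ν hν ∈ cyc (univ : Finset {x : V // x ≠ z}) := by
  classical
  set g := piInv z μ hμ * piInv z ν hν with hg
  set a : {x : V // x ≠ z} := ⟨μ z, hfμ z⟩ with ha
  have hμa : μ a.1 = z := hμ z
  have hpa : piInv z μ hμ a = a := piInv_of_eq hμ hμa
  have hconj : piInv z μ hμ * g * (piInv z μ hμ)⁻¹ = g⁻¹ := by
    rw [hg, mul_inv_rev, piInv_inv, piInv_inv, ← mul_assoc, piInv_mul_self, one_mul]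
  have hclμ : ∀ x, g.SameCycle a x → g.SameCycle a (piInv z μ hμ x) := by
    rintro x ⟨k, rfl⟩
    refine ⟨-k, ?_⟩
    have h1 : g ^ (-k) = piInv z μ hμ * g ^ k * (piInv z μ hμ)⁻¹ := by
      rw [← conj_zpow, hconj, inv_zpow, zpow_neg]
    rw [h1, Perm.mul_apply, Perm.mul_apply, piInv_inv, hpa]
  have hclν : ∀ x, g.SameCycle a x → g.SameCycle a (piInv z ν hν x) := by
    intro x hx
    have h1 : piInv z ν hν x = piInv z μ hμ (g x) := by
      rw [hg, Perm.mul_apply, piInv_piInv]
    rw [h1]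
    exact hclμ _ (Perm.sameCycle_apply_right.2 hx)
  refine mem_cyc_univ_of a (fun y => ?_)
  by_cases hc : g.SameCycle a ⟨ν z, hfν z⟩
  · -- the orbit with `z` is everything
    have h1 := hO {v | v = z ∨ ∃ h : v ≠ z, g.SameCycle a ⟨v, h⟩} ?_ ?_ ⟨z, Or.inl rfl⟩ y.1
    · rcases h1 with h1 | ⟨_, h1⟩
      · exact absurd h1 y.2
      · exact h1
    · rintro v (rfl | ⟨hv, h2⟩)
      · exact Or.inr ⟨hfμ _, Perm.SameCycle.refl _ _⟩
      · by_cases h3 : μ v = z
        · exact Or.inl h3
        · refine Or.inr ⟨h3, ?_⟩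
          have h4 := hclμ _ h2
          have h5 : piInv z μ hμ ⟨v, hv⟩ = ⟨μ v, h3⟩ := Subtype.ext (piInv_of_ne hμ h3)
          rwa [h5] at h4
    · rintro v (rfl | ⟨hv, h2⟩)
      · exact Or.inr ⟨hfν _, hc⟩
      · by_cases h3 : ν v = z
        · exact Or.inl h3
        · refine Or.inr ⟨h3, ?_⟩
          have h4 := hclν _ h2
          have h5 : piInv z ν hν ⟨v, hv⟩ = ⟨ν v, h3⟩ := Subtype.ext (piInv_of_ne hν h3)
          rwa [h5] at h4
  · exfalso
    set O : Finset V := univ.filter (fun v => ∃ h : v ≠ z, g.SameCycle a ⟨v, h⟩) with hOdef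
    have hmem : ∀ v, v ∈ O ↔ ∃ h : v ≠ z, g.SameCycle a ⟨v, h⟩ := by
      intro v
      rw [hOdef, mem_filter]
      simp
    have haO : a.1 ∈ O := (hmem _).2 ⟨a.2, Perm.SameCycle.refl _ _⟩
    have h1 : Even O.card := by
      refine even_card_of_invol hν hfν ?_
      intro v hv
      obtain ⟨hv1, hv2⟩ := (hmem v).1 hv
      have h3 : ν v ≠ z := by
        intro h3
        apply hc
        have h4 : v = ν z := by rw [← h3, hν]
        subst h4
        exact hv2
      refine (hmem _).2 ⟨h3, ?_⟩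
      have h4 := hclν _ hv2
      have h5 : piInv z ν hν ⟨v, hv1⟩ = ⟨ν v, h3⟩ := Subtype.ext (piInv_of_ne hν h3)
      rwa [h5] at h4
    have h2 : Even (O.erase a.1).card := by
      refine even_card_of_invol hμ hfμ ?_
      intro v hv
      rw [mem_erase] at hv
      obtain ⟨hv1, hv2⟩ := (hmem v).1 hv.2
      have h3 : μ v ≠ z := by
        intro h3
        apply hv.1
        show v = μ z
        rw [← h3, hμ]
      rw [mem_erase]
      refine ⟨?_, (hmem _).2 ⟨h3, ?_⟩⟩
      · intro h4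
        apply hv1
        rw [← hμa, ← h4, hμ]
      · have h4 := hclμ _ hv2
        have h5 : piInv z μ hμ ⟨v, hv1⟩ = ⟨μ v, h3⟩ := Subtype.ext (piInv_of_ne hμ h3)
        rwa [h5] at h4
    have h3 : 0 < O.card := card_pos.2 ⟨_, haO⟩
    rw [card_erase_of_mem haO] at h2
    rcases h1 with ⟨s, hs⟩
    rcases h2 with ⟨t, ht⟩
    omega

end Delete

/-! ### The involutions of order `2 p` -/

section Inv

variable {p : ℕ}

private def muF (a : ZMod p) : Bool × ZMod p → Bool × ZMod p :=
  fun x => if x.2 = a then (!x.1, a) else (x.1, 2 * a - x.2)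

private def nuF (b : ZMod p) : Bool × ZMod p → Bool × ZMod p :=
  fun x => if x.1 then (false, x.2 - b) else (true, x.2 + b)

private def famF (i : Bool × ZMod p) : Bool × ZMod p → Bool × ZMod p :=
  if i.1 then nuF i.2 else muF i.2

private theorem muF_invol (a : ZMod p) : Function.Involutive (muF a) := by
  rintro ⟨e, u⟩
  by_cases h : u = a
  · subst h
    simp [muF]
  · have h2 : ¬ (2 * a - u = a) := by
      intro h2
      apply h
      linear_combination (-1 : ZMod p) * h2
    simp [muF, h, h2]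

private theorem nuF_invol (b : ZMod p) : Function.Involutive (nuF b) := by
  rintro ⟨e, u⟩
  cases e <;> simp [nuF]

private theorem famF_invol (i : Bool × ZMod p) : Function.Involutive (famF i) := by
  unfold famF
  split_ifs
  · exact nuF_invol _
  · exact muF_invol _

private theorem nuF_ne (b : ZMod p) (v : Bool × ZMod p) : nuF b v ≠ v := by
  obtain ⟨e, u⟩ := v
  cases e <;> simp [nuF]

private theorem two_ne (_hp : p.Prime) (hp3 : 3 ≤ p) : (2 : ZMod p) ≠ 0 := by
  intro h
  have h1 : ((2 : ℕ) : ZMod p) = 0 := by exact_mod_cast h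
  rw [ZMod.natCast_eq_zero_iff] at h1
  have := Nat.le_of_dvd (by norm_num) h1
  omega

private theorem muF_ne (hp : p.Prime) (hp3 : 3 ≤ p) (a : ZMod p) (v : Bool × ZMod p) :
    muF a v ≠ v := by
  have : Fact p.Prime := ⟨hp⟩
  obtain ⟨e, u⟩ := v
  by_cases h : u = a
  · simp [muF, h]
  · simp only [muF, h, if_false]
    intro h2
    rw [Prod.mk.injEq] at h2
    apply h
    have h3 : (2 : ZMod p) * (u - a) = 0 := by linear_combination (-1 : ZMod p) * h2.2
    rcases mul_eq_zero.1 h3 with h4 | h4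
    · exact absurd h4 (two_ne hp hp3)
    · exact sub_eq_zero.1 h4

private theorem famF_ne (hp : p.Prime) (hp3 : 3 ≤ p) (i v : Bool × ZMod p) : famF i v ≠ v := by
  unfold famF
  split_ifs
  · exact nuF_ne _ _
  · exact muF_ne hp hp3 _ _

private theorem const_of_shift (hp : p.Prime) {P : ZMod p → Prop} {d : ZMod p} (hd : d ≠ 0)
    (h : ∀ u, P u ↔ P (u + d)) (u v : ZMod p) : P u ↔ P v := by
  have : Fact p.Prime := ⟨hp⟩
  have h1 : ∀ k : ℕ, P u ↔ P (u + (k : ZMod p) * d) := by
    intro k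
    induction k with
    | zero => simp
    | succ k ih =>
      rw [ih, h]
      have : u + (k : ZMod p) * d + d = u + ((k + 1 : ℕ) : ZMod p) * d := by
        push_cast
        ring
      rw [this]
  have h2 := h1 (((v - u) / d).val)
  rw [ZMod.natCast_zmod_val, div_mul_cancel₀ _ hd] at h2
  rw [h2]
  have : u + (v - u) = v := by ring
  rw [this]

private theorem closed_iff {V : Type*} {O : Set V} {μ : V → V} (hμ : Function.Involutive μ)
    (h : ∀ v ∈ O, μ v ∈ O) (v : V) : v ∈ O ↔ μ v ∈ O :=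
  ⟨h v, fun h1 => by have := h _ h1; rwa [hμ] at this⟩

private theorem mu_refl {O : Set (Bool × ZMod p)} {a : ZMod p}
    (h : ∀ v, v ∈ O ↔ muF a v ∈ O) (e : Bool) (u : ZMod p) :
    (e, u) ∈ O ↔ (e, 2 * a - u) ∈ O := by
  by_cases hu : u = a
  · subst hu
    have : 2 * u - u = u := by ring
    rw [this]
  · have := h (e, u)
    simpa [muF, hu] using this

private theorem mu_flip {O : Set (Bool × ZMod p)} {a : ZMod p}
    (h : ∀ v, v ∈ O ↔ muF a v ∈ O) : (false, a) ∈ O ↔ (true, a) ∈ O := by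
  have := h (false, a)
  simpa [muF] using this

private theorem nu_shift {O : Set (Bool × ZMod p)} {b : ZMod p}
    (h : ∀ v, v ∈ O ↔ nuF b v ∈ O) (u : ZMod p) : (false, u) ∈ O ↔ (true, u + b) ∈ O := by
  have := h (false, u)
  simpa [nuF] using this

private theorem all_of_const {O : Set (Bool × ZMod p)} (hne : O.Nonempty)
    (hP : ∀ u v : ZMod p, ((false, u) ∈ O ↔ (false, v) ∈ O))
    (hQ : ∀ u : ZMod p, ∃ w, ((true, u) ∈ O ↔ (false, w) ∈ O)) : ∀ v, v ∈ O := by
  have h1 : ∃ w, (false, w) ∈ O := by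
    obtain ⟨⟨e, u⟩, hu⟩ := hne
    cases e
    · exact ⟨u, hu⟩
    · obtain ⟨w, hw⟩ := hQ u
      exact ⟨w, hw.1 hu⟩
  obtain ⟨w, hw⟩ := h1
  rintro ⟨e, u⟩
  cases e
  · exact (hP u w).2 hw
  · obtain ⟨w', hw'⟩ := hQ u
    exact hw'.2 ((hP w' w).2 hw)

private theorem mu_mu (hp : p.Prime) (hp3 : 3 ≤ p) {O : Set (Bool × ZMod p)} {a a' : ZMod p}
    (haa : a ≠ a') (h1 : ∀ v, v ∈ O ↔ muF a v ∈ O) (h2 : ∀ v, v ∈ O ↔ muF a' v ∈ O)
    (hne : O.Nonempty) : ∀ v, v ∈ O := by
  have : Fact p.Prime := ⟨hp⟩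
  have hd : 2 * (a' - a) ≠ 0 := mul_ne_zero (two_ne hp hp3) (sub_ne_zero.2 haa.symm)
  have hc : ∀ (e : Bool) (u v : ZMod p), ((e, u) ∈ O ↔ (e, v) ∈ O) := by
    intro e
    refine const_of_shift (P := fun u => (e, u) ∈ O) hp hd ?_
    intro u
    show (e, u) ∈ O ↔ (e, u + 2 * (a' - a)) ∈ O
    rw [mu_refl h1 e u, mu_refl h2 e (2 * a - u)]
    have : 2 * a' - (2 * a - u) = u + 2 * (a' - a) := by ring
    rw [this]
  refine all_of_const hne (hc false) (fun u => ⟨a, ?_⟩)
  rw [mu_flip h1]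
  exact hc true u a

private theorem mu_nu (hp : p.Prime) (hp3 : 3 ≤ p) {O : Set (Bool × ZMod p)} {a b : ZMod p}
    (hb : b ≠ 0) (h1 : ∀ v, v ∈ O ↔ muF a v ∈ O) (h2 : ∀ v, v ∈ O ↔ nuF b v ∈ O)
    (hne : O.Nonempty) : ∀ v, v ∈ O := by
  have : Fact p.Prime := ⟨hp⟩
  have hd : 2 * b ≠ 0 := mul_ne_zero (two_ne hp hp3) hb
  have hc : ∀ (u v : ZMod p), ((false, u) ∈ O ↔ (false, v) ∈ O) := by
    refine const_of_shift (P := fun u => (false, u) ∈ O) hp hd ?_
    intro u
    show (false, u) ∈ O ↔ (false, u + 2 * b) ∈ O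
    rw [mu_refl h1 false (u + 2 * b), nu_shift h2 (2 * a - (u + 2 * b)),
      mu_refl h1 true, nu_shift h2 u]
    have : 2 * a - (2 * a - (u + 2 * b) + b) = u + b := by ring
    rw [this]
  refine all_of_const hne hc (fun u => ⟨u - b, ?_⟩)
  rw [nu_shift h2 (u - b)]
  have : u - b + b = u := by ring
  rw [this]

private theorem nu_nu (hp : p.Prime) {O : Set (Bool × ZMod p)} {b c : ZMod p}
    (hbc : b ≠ c) (h1 : ∀ v, v ∈ O ↔ nuF b v ∈ O) (h2 : ∀ v, v ∈ O ↔ nuF c v ∈ O)
    (hne : O.Nonempty) : ∀ v, v ∈ O := by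
  have : Fact p.Prime := ⟨hp⟩
  have hd : b - c ≠ 0 := sub_ne_zero.2 hbc
  have hc : ∀ (u v : ZMod p), ((false, u) ∈ O ↔ (false, v) ∈ O) := by
    refine const_of_shift (P := fun u => (false, u) ∈ O) hp hd ?_
    intro u
    show (false, u) ∈ O ↔ (false, u + (b - c)) ∈ O
    rw [nu_shift h1 u, nu_shift h2 (u + (b - c))]
    have : u + (b - c) + c = u + b := by ring
    rw [this]
  refine all_of_const hne hc (fun u => ⟨u - b, ?_⟩)
  rw [nu_shift h1 (u - b)]
  have : u - b + b = u := by ring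
  rw [this]

private theorem fam_closed (hp : p.Prime) (hp3 : 3 ≤ p) {i j : Bool × ZMod p}
    (hi : i ≠ (true, 0)) (hj : j ≠ (true, 0)) (hij : i ≠ j) (O : Set (Bool × ZMod p))
    (h1 : ∀ v ∈ O, famF i v ∈ O) (h2 : ∀ v ∈ O, famF j v ∈ O) (hne : O.Nonempty) :
    ∀ v, v ∈ O := by
  have h1' := closed_iff (famF_invol i) h1
  have h2' := closed_iff (famF_invol j) h2
  obtain ⟨e, a⟩ := i
  obtain ⟨e', b⟩ := j
  cases e <;> cases e'
  · have hab : a ≠ b := by
      rintro rfl
      exact hij rfl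
    exact mu_mu hp hp3 hab (by simpa [famF] using h1') (by simpa [famF] using h2') hne
  · have hb : b ≠ 0 := by
      rintro rfl
      exact hj rfl
    exact mu_nu hp hp3 hb (by simpa [famF] using h1') (by simpa [famF] using h2') hne
  · have hb : a ≠ 0 := by
      rintro rfl
      exact hi rfl
    exact mu_nu hp hp3 hb (by simpa [famF] using h2') (by simpa [famF] using h1') hne
  · have hab : a ≠ b := by
      rintro rfl
      exact hij rfl
    exact nu_nu hp hab (by simpa [famF] using h1') (by simpa [famF] using h2') hne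

end Inv

theorem exists_rowHam_two_mul_sub_one {p : ℕ} (hp : p.Prime) (hp3 : 3 ≤ p) :
    ∃ D : Finset (Perm (Fin (2 * p - 1))), RowHam D := by
  have : Fact p.Prime := ⟨hp⟩
  have : NeZero p := ⟨by omega⟩
  have hcard : Fintype.card {x : Bool × ZMod p // x ≠ (true, 0)} = 2 * p - 1 := by
    rw [Fintype.card_subtype_compl, Fintype.card_subtype_eq, Fintype.card_prod, Fintype.card_bool,
      ZMod.card]
  have : Nontrivial {x : Bool × ZMod p // x ≠ (true, 0)} := by
    rw [← Fintype.one_lt_card_iff_nontrivial, hcard]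
    omega
  have hfull : ∀ i j : {x : Bool × ZMod p // x ≠ (true, 0)}, i ≠ j →
      piInv (true, (0 : ZMod p)) (famF i.1) (famF_invol i.1) *
        piInv (true, (0 : ZMod p)) (famF j.1) (famF_invol j.1) ∈ cyc univ := by
    intro i j hij
    refine pi_full _ _ _ (famF_ne hp hp3 _) (famF_ne hp hp3 _) ?_
    exact fam_closed hp hp3 i.2 j.2 (fun h => hij (Subtype.ext h))
  have hinj : Function.Injective (fun i : {x : Bool × ZMod p // x ≠ (true, 0)} =>
      piInv (true, (0 : ZMod p)) (famF i.1) (famF_invol i.1)) := by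
    intro i j hij
    by_contra hne
    have h1 := hfull i j hne
    have h2 : piInv (true, (0 : ZMod p)) (famF i.1) (famF_invol i.1) =
      piInv (true, (0 : ZMod p)) (famF j.1) (famF_invol j.1) := hij
    rw [h2, piInv_mul_self, mem_cyc] at h1
    exact h1.1.ne_one rfl
  have hD : RowHam (univ.image (fun i : {x : Bool × ZMod p // x ≠ (true, 0)} =>
      piInv (true, (0 : ZMod p)) (famF i.1) (famF_invol i.1))) := by
    refine ⟨?_, ?_⟩
    · rw [card_image_of_injective _ hinj, card_univ]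
    · intro a ha b hb hab
      rw [mem_image] at ha hb
      obtain ⟨i, -, rfl⟩ := ha
      obtain ⟨j, -, rfl⟩ := hb
      rw [piInv_inv]
      refine hfull i j ?_
      rintro rfl
      exact hab rfl
  exact hD.congr (Fintype.equivFinOfCardEq hcard)

end Pool.H98.BE
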