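import Pool.Agent.H60.TranspLex

set_option autoImplicit false

/-!
# Initial segments with two leading digits
-/

open Finset Equiv Pool.H60.Transp

namespace Pool.H98.BE

/-- the allowed values at the second place -/
private def lexW (N : ℕ) (cv : Fin (N + 2)) (c' : ℕ) : Finset (Fin (N + 2)) :=
  (univ.filter (fun i : Fin (N + 1) => i.val < c')).map (Fin.succAboveEmb cv)

private lemma lexW_mem {N : ℕ} {cv : Fin (N + 2)} {c' : ℕ} {w : Fin (N + 2)} :
    w ∈ lexW N cv c' ↔ ∃ i : Fin (N + 1), i.val < c' ∧ cv.succAbove i = w := by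
  unfold lexW
  simp only [mem_map, mem_filter, mem_univ, true_and, Fin.succAboveEmb_apply]

private lemma lexW_ne {N : ℕ} {cv : Fin (N + 2)} {c' : ℕ} {w : Fin (N + 2)}
    (hw : w ∈ lexW N cv c') : w ≠ cv := by
  obtain ⟨i, _, rfl⟩ := lexW_mem.1 hw
  exact Fin.succAbove_ne cv i

private lemma lexW_card {N : ℕ} (cv : Fin (N + 2)) {c' : ℕ} (hc' : c' ≤ N + 1) :
    (lexW N cv c').card = c' := by
  unfold lexW
  rw [card_map]
  have h : (univ.filter (fun i : Fin (N + 1) => i.val < c')).map Fin.valEmbedding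
      = Finset.range c' := by
    ext x
    simp only [mem_map, mem_filter, mem_univ, true_and, Fin.valEmbedding_apply, mem_range]
    constructor
    · rintro ⟨i, h1, rfl⟩
      exact h1
    · intro h1
      exact ⟨⟨x, by omega⟩, h1, rfl⟩
  rw [← card_map Fin.valEmbedding, h, card_range]

private lemma lexW_down {N : ℕ} {cv : Fin (N + 2)} {c' : ℕ} {w u : Fin (N + 2)}
    (hw : w ∈ lexW N cv c') (hu : u < w) (hne : u ≠ cv) : u ∈ lexW N cv c' := by
  obtain ⟨i, hi, rfl⟩ := lexW_mem.1 hw
  obtain ⟨j, rfl⟩ := Fin.exists_succAbove_eq hne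
  rw [lexW_mem]
  refine ⟨j, ?_, rfl⟩
  have h1 : j < i := (Fin.strictMono_succAbove cv).lt_iff_lt.1 hu
  exact lt_trans (Fin.lt_def.1 h1) hi

/-- the permutations with given first value and second value in `W` -/
private def lexZ (N : ℕ) (cv : Fin (N + 2)) (c' : ℕ) : Finset (Perm (Fin (N + 2))) :=
  univ.filter (fun σ => σ 0 = cv ∧ σ 1 ∈ lexW N cv c')

private lemma lexZ_fiber {N : ℕ} {cv : Fin (N + 2)} {c' : ℕ} {w : Fin (N + 2)}
    (hw : w ∈ lexW N cv c') {σ₀ : Perm (Fin (N + 2))} (h0 : σ₀ 0 = cv) (h1 : σ₀ 1 = w) :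
    (lexZ N cv c').filter (fun σ => σ 1 = w) = coset (univ \ {0, 1}) σ₀ := by
  ext σ
  simp only [lexZ, coset, mem_filter, mem_univ, true_and, mem_sdiff, mem_insert, mem_singleton,
    not_not]
  constructor
  · rintro ⟨⟨h2, _⟩, h4⟩ q hq
    rcases hq with rfl | rfl
    · rw [h2, h0]
    · rw [h4, h1]
  · intro h
    have h2 : σ 0 = cv := by rw [h 0 (Or.inl rfl), h0]
    have h3 : σ 1 = w := by rw [h 1 (Or.inr rfl), h1]
    exact ⟨⟨h2, by rw [h3]; exact hw⟩, h3⟩

private lemma lex_card_M (N : ℕ) : (univ \ {0, 1} : Finset (Fin (N + 2))).card = N := by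
  rw [card_sdiff_of_subset (subset_univ _), card_univ, Fintype.card_fin, card_pair]
  · omega
  · intro h
    have := congrArg Fin.val h
    simp at this

private lemma lex_exists_base {N : ℕ} {cv w : Fin (N + 2)} (hw : w ≠ cv) :
    ∃ σ₀ : Perm (Fin (N + 2)), σ₀ 0 = cv ∧ σ₀ 1 = w := by
  have h01 : (0 : Fin (N + 2)) ≠ 1 := by
    intro h
    have := congrArg Fin.val h
    simp at this
  have h1 : (Equiv.swap 0 cv) (1 : Fin (N + 2)) ≠ cv := by
    intro h
    have h2 : (Equiv.swap 0 cv) (0 : Fin (N + 2)) = cv := Equiv.swap_apply_left _ _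
    exact h01 ((Equiv.swap 0 cv).injective (h2.trans h.symm))
  refine ⟨Equiv.swap ((Equiv.swap 0 cv) 1) w * Equiv.swap 0 cv, ?_, ?_⟩
  · rw [Perm.mul_apply, Equiv.swap_apply_left, Equiv.swap_apply_of_ne_of_ne h1.symm hw.symm]
  · rw [Perm.mul_apply, Equiv.swap_apply_left]

private lemma lexZ_card {N : ℕ} (cv : Fin (N + 2)) {c' : ℕ} (hc' : c' ≤ N + 1) :
    (lexZ N cv c').card = c' * N.factorial := by
  rw [Finset.card_eq_sum_card_fiberwise (t := lexW N cv c') (f := fun σ => σ 1)]
  · rw [Finset.sum_const_nat (m := N.factorial), lexW_card cv hc']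
    intro w hw
    obtain ⟨σ₀, h0, h1⟩ := lex_exists_base (lexW_ne hw)
    rw [lexZ_fiber hw h0 h1, card_coset, lex_card_M]
  · intro σ hσ
    rw [Finset.mem_coe] at hσ ⊢
    simp only [lexZ, mem_filter, mem_univ, true_and] at hσ
    exact hσ.2

private lemma lexZ_degree {N : ℕ} {cv : Fin (N + 2)} {c' : ℕ} (hc' : c' ≤ N + 1)
    {σ : Perm (Fin (N + 2))} (hσ : σ ∈ lexZ N cv c') :
    N.choose 2 + c' ≤ ∑ π ∈ lexZ N cv c', e σ π + 1 := by
  classical
  have hσ' := hσ
  simp only [lexZ, mem_filter, mem_univ, true_and] at hσ'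
  obtain ⟨hσ0, hσ1⟩ := hσ'
  have h1 : ∑ π ∈ lexZ N cv c', e σ π
      = ∑ w ∈ lexW N cv c', ∑ π ∈ (lexZ N cv c').filter (fun π => π 1 = w), e σ π := by
    symm
    apply Finset.sum_fiberwise_of_maps_to
    intro π hπ
    simp only [lexZ, mem_filter, mem_univ, true_and] at hπ
    exact hπ.2
  have h2 : ∑ π ∈ (lexZ N cv c').filter (fun π => π 1 = σ 1), e σ π = N.choose 2 := by
    have hmem : σ ∈ (lexZ N cv c').filter (fun π => π 1 = σ 1) := mem_filter.2 ⟨hσ, rfl⟩
    rw [lexZ_fiber hσ1 hσ0 rfl] at hmem ⊢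
    rw [degree_coset _ _ hmem, lex_card_M]
  have h3 : ∀ w ∈ (lexW N cv c').erase (σ 1),
      1 ≤ ∑ π ∈ (lexZ N cv c').filter (fun π => π 1 = w), e σ π := by
    intro w hw
    rw [Finset.mem_erase] at hw
    obtain ⟨hne, hw⟩ := hw
    set z := σ⁻¹ w with hz
    have hσz : σ z = w := by rw [hz]; simp
    have hz1 : z ≠ 1 := by
      intro h
      rw [h] at hσz
      exact hne hσz.symm
    have hz0 : z ≠ 0 := by
      intro h
      rw [h, hσ0] at hσz
      exact lexW_ne hw hσz.symm
    have h01 : (0 : Fin (N + 2)) ≠ 1 := by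
      intro h
      have := congrArg Fin.val h
      simp at this
    have hmem : σ * Equiv.swap 1 z ∈ (lexZ N cv c').filter (fun π => π 1 = w) := by
      have hqv : (σ * Equiv.swap 1 z) 1 = w := by
        rw [Perm.mul_apply, Equiv.swap_apply_left, hσz]
      rw [mem_filter]
      refine ⟨?_, hqv⟩
      simp only [lexZ, mem_filter, mem_univ, true_and]
      refine ⟨?_, by rw [hqv]; exact hw⟩
      rw [Perm.mul_apply, Equiv.swap_apply_of_ne_of_ne h01 hz0.symm, hσ0]
    have hadj : e σ (σ * Equiv.swap 1 z) = 1 := by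
      rw [e_eq, if_pos]
      exact ⟨1, z, hz1.symm, rfl⟩
    exact hadj.symm.le.trans
      (Finset.single_le_sum (f := fun π => e σ π) (fun _ _ => Nat.zero_le _) hmem)
  have h4 := Finset.sum_le_sum h3
  rw [Finset.sum_const, smul_eq_mul, mul_one, Finset.card_erase_of_mem hσ1,
    lexW_card cv hc'] at h4
  have h5 := Finset.add_sum_erase (lexW N cv c')
    (fun w => ∑ π ∈ (lexZ N cv c').filter (fun π => π 1 = w), e σ π) hσ1
  rw [h2] at h5
  rw [h1]
  omega

private lemma lexZ_D {N : ℕ} (cv : Fin (N + 2)) {c' : ℕ} (hc' : c' ≤ N + 1) :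
    (lexZ N cv c').card * (N.choose 2 + c') ≤ D (lexZ N cv c') + (lexZ N cv c').card := by
  have h := Finset.sum_le_sum (fun σ (hσ : σ ∈ lexZ N cv c') => lexZ_degree hc' hσ)
  rw [Finset.sum_const, smul_eq_mul, Finset.sum_add_distrib, Finset.sum_const, smul_eq_mul,
    mul_one] at h
  exact h

private lemma lex_cross {N c : ℕ} (hc : c ≤ N + 1) {cv : Fin (N + 2)} (hcv : cv.val = c)
    (c' : ℕ) : (lexZ N cv c').card * c ≤ cross (lexZ N cv c') (seg 0 c) := by
  classical
  unfold cross
  rw [Finset.card_eq_sum_ones, Finset.sum_mul]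
  apply Finset.sum_le_sum
  intro σ hσ
  rw [one_mul]
  simp only [lexZ, mem_filter, mem_univ, true_and] at hσ
  obtain ⟨hσ0, _⟩ := hσ
  have h1 : ∑ π ∈ seg 0 c, e σ π
      = ∑ v ∈ vals 0 c, ∑ π ∈ (seg 0 c).filter (fun π => π 0 = v), e σ π := by
    symm
    apply Finset.sum_fiberwise_of_maps_to
    intro π hπ
    simp only [seg, vals, mem_filter, mem_univ, true_and] at hπ ⊢
    exact ⟨Fin.zero_le _, hπ.2⟩
  have h3 : ∀ v ∈ vals (0 : Fin (N + 2)) c,
      1 ≤ ∑ π ∈ (seg 0 c).filter (fun π => π 0 = v), e σ π := by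
    intro v hv
    simp only [vals, mem_filter, mem_univ, true_and] at hv
    set z := σ⁻¹ v with hz
    have hσz : σ z = v := by rw [hz]; simp
    have hvc : v.val < c := by
      have := hv.2
      simpa using this
    have hz0 : z ≠ 0 := by
      intro h
      rw [h, hσ0] at hσz
      rw [← hσz, hcv] at hvc
      exact lt_irrefl _ hvc
    have hmem : σ * Equiv.swap 0 z ∈ (seg 0 c).filter (fun π => π 0 = v) := by
      have hqv : (σ * Equiv.swap 0 z) 0 = v := by
        rw [Perm.mul_apply, Equiv.swap_apply_left, hσz]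
      rw [mem_filter]
      refine ⟨?_, hqv⟩
      simp only [seg, mem_filter, mem_univ, true_and]
      refine ⟨fun i hi => absurd hi (not_lt.2 (Fin.zero_le _)), by rw [hqv]; exact hv.2⟩
    have hadj : e σ (σ * Equiv.swap 0 z) = 1 := by
      rw [e_eq, if_pos]
      exact ⟨0, z, hz0.symm, rfl⟩
    exact hadj.symm.le.trans
      (Finset.single_le_sum (f := fun π => e σ π) (fun _ _ => Nat.zero_le _) hmem)
  have h4 := Finset.sum_le_sum h3
  rw [Finset.sum_const, smul_eq_mul, mul_one, card_vals 0 c (by simp; omega), ← h1] at h4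
  exact h4

/-- a lexicographically down-closed set of size `c (N+1)! + c' N!` with many inner edges -/
theorem exists_lex_two (N c c' : ℕ) (hc : c ≤ N + 1) (hc' : c' ≤ N + 1) :
    ∃ X : Finset (Perm (Fin (N + 2))),
      X.card = c * (N + 1).factorial + c' * N.factorial ∧
      (∀ σ ∈ X, ∀ π, lexLT π σ → π ∈ X) ∧
      c * (N + 1).factorial * ((N + 1).choose 2 + c) + 2 * (c * (c' * N.factorial))
        + c' * N.factorial * (N.choose 2 + c') ≤ D X + X.card := by
  classical
  set cv : Fin (N + 2) := ⟨c, by omega⟩ with hcv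
  have hcv' : cv.val = c := rfl
  set Y : Finset (Perm (Fin (N + 2))) := seg 0 c with hY
  set Z := lexZ N cv c' with hZ
  have hYmem : ∀ σ, σ ∈ Y ↔ (σ 0).val < c := by
    intro σ
    simp only [hY, seg, mem_filter, mem_univ, true_and]
    constructor
    · intro h
      simpa using h.2
    · intro h
      exact ⟨fun i hi => absurd hi (not_lt.2 (Fin.zero_le _)), by simpa using h⟩
  have hZmem : ∀ σ, σ ∈ Z ↔ σ 0 = cv ∧ σ 1 ∈ lexW N cv c' := by
    intro σ
    simp only [hZ, lexZ, mem_filter, mem_univ, true_and]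
  have hYZ : Disjoint Y Z := by
    rw [Finset.disjoint_left]
    intro σ h1 h2
    rw [hYmem] at h1
    rw [hZmem] at h2
    rw [h2.1, hcv'] at h1
    exact lt_irrefl _ h1
  have hYcard : Y.card = c * (N + 1).factorial :=
    card_seg 0 c (N + 1) (by simp) (by simp; omega)
  have hZcard : Z.card = c' * N.factorial := lexZ_card cv hc'
  have hcard : (Y ∪ Z).card = c * (N + 1).factorial + c' * N.factorial := by
    rw [card_union_of_disjoint hYZ, hYcard, hZcard]
  refine ⟨Y ∪ Z, hcard, ?_, ?_⟩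
  · intro σ hσ π hπ
    rw [mem_union] at hσ ⊢
    rcases hσ with hσ | hσ
    · exact Or.inl (seg_down 0 c σ hσ π hπ)
    · rw [hZmem] at hσ
      obtain ⟨hσ0, hσ1⟩ := hσ
      obtain ⟨j, hj, hj'⟩ := hπ
      have h01 : (0 : Fin (N + 2)) < 1 := by
        rw [Fin.lt_def]
        simp
      rcases Nat.eq_zero_or_pos j.val with h0 | h0
      · left
        have hj0 : j = 0 := Fin.ext h0
        rw [hj0, hσ0] at hj'
        rw [hYmem]
        exact Fin.lt_def.1 hj'
      · right
        rw [hZmem]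
        have hj0 : (0 : Fin (N + 2)) < j := by
          rw [Fin.lt_def]
          exact h0
        have hπ0 : π 0 = cv := by rw [hj 0 hj0, hσ0]
        refine ⟨hπ0, ?_⟩
        by_cases h1 : j = 1
        · rw [h1] at hj'
          refine lexW_down hσ1 hj' ?_
          intro h
          exact h01.ne (π.injective (hπ0.trans h.symm))
        · have hj1 : (1 : Fin (N + 2)) < j := by
            rw [Fin.lt_def]
            have h2 : j.val ≠ 1 := by
              intro h
              apply h1
              apply Fin.ext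
              rw [h]
              simp
            have h3 : (1 : Fin (N + 2)).val = 1 := by simp
            rw [h3]
            omega
          rw [hj 1 hj1]
          exact hσ1
  · have hf1 : (Y ∪ Z).filter (fun σ => σ 0 = cv) = Z := by
      ext σ
      rw [mem_filter, mem_union]
      constructor
      · rintro ⟨h | h, h2⟩
        · rw [hYmem, h2, hcv'] at h
          exact absurd h (lt_irrefl _)
        · exact h
      · intro h
        exact ⟨Or.inr h, ((hZmem σ).1 h).1⟩
    have hf2 : (Y ∪ Z).filter (fun σ => ¬ σ 0 = cv) = Y := by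
      ext σ
      rw [mem_filter, mem_union]
      constructor
      · rintro ⟨h | h, h2⟩
        · exact h
        · exact absurd ((hZmem σ).1 h).1 h2
      · intro h
        refine ⟨Or.inl h, ?_⟩
        intro h2
        rw [hYmem, h2, hcv'] at h
        exact absurd h (lt_irrefl _)
    have hD := D_filter (Y ∪ Z) (fun σ => σ 0 = cv)
    rw [hf1, hf2] at hD
    have h1 := D_seg (n := N + 2) 0 c (N + 1) (by simp) (by simp; omega)
    have h2 := lexZ_D cv hc'
    have h3 := lex_cross hc hcv' c'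
    rw [← hY] at h1 h3
    rw [← hZ] at h2 h3
    rw [cross_comm Z Y] at h3
    rw [hYcard] at h1
    rw [hZcard] at h2 h3
    rw [hD, hcard]
    have h4 : c' * N.factorial * c = c * (c' * N.factorial) := by ring
    rw [h4] at h3
    omega

end Pool.H98.BE
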