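import Pool.Agent.H98.BE.Quad
import Pool.Agent.H98.BE.CountD
import Pool.Agent.H98.BE.Lex2

set_option autoImplicit false

/-!
# Edge isoperimetry in the transposition graph: two leading digits, for orders of row-Hamiltonian
Latin squares
-/

open Finset Equiv Pool.H60.Transp

namespace Pool.H98.BE

lemma sum_offdiag {n : ℕ} (g : Fin n → Fin n → ℝ) (hg : ∀ x y, g x y = g y x) :
    ∑ x : Fin n, ∑ y ∈ univ.erase x, g x y = 2 * ∑ p ∈ pairs n, g p.1 p.2 := by
  have h1 : ∑ x : Fin n, ∑ y ∈ univ.erase x, g x y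
      = ∑ p ∈ (univ : Finset (Fin n × Fin n)).filter (fun p => p.1 ≠ p.2), g p.1 p.2 := by
    rw [Finset.sum_filter, ← Finset.univ_product_univ, Finset.sum_product]
    apply Finset.sum_congr rfl
    intro x _
    rw [← Finset.sum_filter]
    apply Finset.sum_congr _ (fun _ _ => rfl)
    ext y
    simp only [mem_erase, mem_univ, and_true, mem_filter, true_and, ne_eq]
    exact ⟨fun h h' => h h'.symm, fun h h' => h h'.symm⟩
  have h2 : (univ : Finset (Fin n × Fin n)).filter (fun p => p.1 ≠ p.2)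
      = pairs n ∪ univ.filter (fun p : Fin n × Fin n => p.2 < p.1) := by
    ext p
    simp only [pairs, mem_filter, mem_univ, true_and, mem_union, ne_eq]
    exact lt_or_lt_iff_ne.symm
  have h3 : Disjoint (pairs n) (univ.filter (fun p : Fin n × Fin n => p.2 < p.1)) := by
    rw [Finset.disjoint_left]
    intro p hp hp'
    simp only [pairs, mem_filter, mem_univ, true_and] at hp hp'
    exact absurd hp (not_lt.2 hp'.le)
  have h4 : ∑ p ∈ univ.filter (fun p : Fin n × Fin n => p.2 < p.1), g p.1 p.2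
      = ∑ p ∈ pairs n, g p.1 p.2 := by
    apply Finset.sum_nbij' (fun p => (p.2, p.1)) (fun p => (p.2, p.1))
    · intro p hp
      simp only [pairs, mem_filter, mem_univ, true_and] at hp ⊢
      exact hp
    · intro p hp
      simp only [pairs, mem_filter, mem_univ, true_and] at hp ⊢
      exact hp
    · intro p _; rfl
    · intro p _; rfl
    · intro p _; exact hg _ _
  rw [h1, h2, Finset.sum_union h3, h4]
  ring

lemma sum_indicator {n : ℕ} (A : Finset (Perm (Fin n))) (σ : Perm (Fin n)) :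
    ∑ τ, (if τ ∈ A then (1 : ℝ) else 0) * (if τ * σ ∈ A then (1 : ℝ) else 0)
      = ∑ τ ∈ A, (if τ * σ ∈ A then (1 : ℝ) else 0) := by
  rw [← Finset.sum_filter_add_sum_filter_not univ (fun τ => τ ∈ A)]
  have h1 : ∑ τ ∈ univ.filter (fun τ => ¬ τ ∈ A), (if τ ∈ A then (1 : ℝ) else 0)
      * (if τ * σ ∈ A then (1 : ℝ) else 0) = 0 := by
    apply Finset.sum_eq_zero
    intro τ hτ
    rw [if_neg (Finset.mem_filter.1 hτ).2, zero_mul]
  rw [h1, add_zero]
  have h2 : univ.filter (fun τ => τ ∈ A) = A := by ext; simp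
  rw [h2]
  apply Finset.sum_congr rfl
  intro τ hτ
  rw [if_pos hτ, one_mul]

lemma sum_D {n : ℕ} (A : Finset (Perm (Fin n))) :
    ∑ x : Fin n, ∑ y ∈ univ.erase x, ∑ τ, (if τ ∈ A then (1 : ℝ) else 0)
      * (if τ * Equiv.swap x y ∈ A then (1 : ℝ) else 0) = 2 * D A := by
  rw [sum_offdiag (fun x y => ∑ τ, (if τ ∈ A then (1 : ℝ) else 0)
      * (if τ * Equiv.swap x y ∈ A then (1 : ℝ) else 0)) (fun x y => by rw [Equiv.swap_comm])]
  congr 1
  simp_rw [sum_indicator]
  rw [Finset.sum_comm]
  unfold D cross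
  push_cast
  apply Finset.sum_congr rfl
  intro τ _
  have h := card_pairs_mem A τ
  rw [Finset.card_filter] at h
  have h' : ((∑ p ∈ pairs n, if τ * Equiv.swap p.1 p.2 ∈ A then 1 else 0 : ℕ) : ℝ)
      = ((∑ π ∈ A, e τ π : ℕ) : ℝ) := by rw [h]
  push_cast at h'
  exact h'

/-- The inequality, exact for all sizes divisible by `(n-2)!`. -/
theorem main_bound {n : ℕ} (hD : ∃ D : Finset (Perm (Fin n)), RowHam D) (hn3 : 3 ≤ n)
    (A : Finset (Perm (Fin n))) (c : ℕ) :
    ((n - 2).factorial : ℝ) * D A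
      + ((n : ℝ) - 2) * ((n - 2).factorial : ℝ)
        * (2 * c * A.card - c * (c + 1) * ((n - 1).factorial : ℝ))
      ≤ (A.card : ℝ) ^ 2
        + ((n - 2).factorial : ℝ) * (((n : ℝ) - 1) * ((n : ℝ) - 4) / 2) * A.card := by
  have hq := quad_bound hn3 (fun τ : Perm (Fin n) => if τ ∈ A then (1 : ℝ) else 0)
  obtain ⟨D₀, hD₀⟩ := hD
  have hc := cyc_count_design hn3 hD₀ (fun τ : Perm (Fin n) => if τ ∈ A then (1 : ℤ) else 0) c
  beta_reduce at hq hc
  rw [sum_D] at hq
  have h1 : ∑ τ : Perm (Fin n), (if τ ∈ A then (1 : ℝ) else 0) = A.card := by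
    rw [← Finset.sum_filter]; simp
  have h2 : ∑ τ : Perm (Fin n), (if τ ∈ A then (1 : ℝ) else 0) ^ 2 = A.card := by
    rw [← h1]
    apply Finset.sum_congr rfl
    intro τ _
    split_ifs <;> norm_num
  have h3 : ∑ τ : Perm (Fin n), (if τ ∈ A then (1 : ℤ) else 0) = A.card := by
    rw [← Finset.sum_filter]; simp
  have h4 : ∑ τ : Perm (Fin n), (if τ ∈ A then (1 : ℤ) else 0) ^ 2 = A.card := by
    rw [← h3]
    apply Finset.sum_congr rfl
    intro τ _
    split_ifs <;> norm_num
  rw [h1, h2] at hq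
  rw [h3, h4] at hc
  have hc' : (((n - 2).factorial : ℤ) * ((2 * (c : ℤ) + 1) * (A.card : ℤ) - (A.card : ℤ)
        - (c : ℤ) * ((c : ℤ) + 1) * ((n - 1).factorial : ℤ)) : ℝ)
      ≤ ∑ σ ∈ cyc (univ : Finset (Fin n)), ∑ τ, (if τ ∈ A then (1 : ℝ) else 0)
        * (if τ * σ ∈ A then (1 : ℝ) else 0) := by
    have h5 : ((∑ σ ∈ cyc (univ : Finset (Fin n)), ∑ τ : Perm (Fin n),
        (if τ ∈ A then (1 : ℤ) else 0) * (if τ * σ ∈ A then (1 : ℤ) else 0) : ℤ) : ℝ)
        = ∑ σ ∈ cyc (univ : Finset (Fin n)), ∑ τ, (if τ ∈ A then (1 : ℝ) else 0)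
        * (if τ * σ ∈ A then (1 : ℝ) else 0) := by
      push_cast
      rfl
    rw [← h5]
    exact_mod_cast hc
  push_cast at hc'
  have hn2 : (0 : ℝ) ≤ (n : ℝ) - 2 := by
    have : (3 : ℝ) ≤ n := by exact_mod_cast hn3
    linarith
  have h6 := mul_le_mul_of_nonneg_left hc' hn2
  nlinarith [h6, hq]

theorem bd_lex_le_rowHam {n : ℕ} (hRH : ∃ D : Finset (Perm (Fin n)), RowHam D)
    (A : Finset (Perm (Fin n)))
    (hA : (n - 2).factorial ∣ A.card) : bd (lexInit n A.card) ≤ bd A := by
  have hle : A.card ≤ n.factorial := by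
    have := Finset.card_le_univ A
    rwa [Fintype.card_perm, Fintype.card_fin] at this
  rcases Nat.lt_or_ge n 3 with h2 | h3
  · have hle2 : n.factorial ≤ 2 := by
      have := Nat.factorial_le (show n ≤ 2 by omega)
      simpa using this
    exact bd_lex_le (k := 1) (c := A.card) le_rfl (by omega) A (by simp)
  · obtain ⟨N, rfl⟩ : ∃ N, n = N + 2 := ⟨n - 2, by omega⟩
    have e1 : N + 2 - 2 = N := by omega
    have e2 : N + 2 - 1 = N + 1 := by omega
    rw [e1] at hA
    obtain ⟨q, hq⟩ := hA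
    have hFpos : 0 < N.factorial := Nat.factorial_pos N
    have hq2 : q ≤ (N + 2) * (N + 1) := by
      have : N.factorial * q ≤ N.factorial * ((N + 2) * (N + 1)) := by
        rw [← hq]
        refine hle.trans (le_of_eq ?_)
        rw [Nat.factorial_succ (N + 1), Nat.factorial_succ N]
        ring
      exact Nat.le_of_mul_le_mul_left this hFpos
    set c := q / (N + 1) with hc
    set c' := q % (N + 1) with hc'
    have hqc : (N + 1) * c + c' = q := Nat.div_add_mod q (N + 1)
    have hc'lt : c' < N + 1 := Nat.mod_lt _ (by omega)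
    have hcle : c ≤ N + 2 := by
      rw [hc]
      exact Nat.div_le_of_le_mul (by rw [Nat.mul_comm]; exact hq2)
    rcases Nat.lt_or_ge c (N + 2) with hcN | hcN
    · obtain ⟨X, hX1, hX2, hX3⟩ := exists_lex_two N c c' (by omega) (by omega)
      have hcard : X.card = A.card := by
        rw [hX1, hq, ← hqc, Nat.factorial_succ]
        ring
      have hm := main_bound hRH h3 A c
      rw [e1, e2] at hm
      have hD : D A + A.card ≤ D X + X.card := by
        refine le_trans ?_ hX3
        have hmR : (A.card : ℝ) = (N.factorial : ℝ) * (((N : ℝ) + 1) * c + c') := by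
          rw [hq, ← hqc]; push_cast; ring
        have hf : (((N + 1).factorial : ℕ) : ℝ) = ((N : ℝ) + 1) * (N.factorial : ℝ) := by
          rw [Nat.factorial_succ]; push_cast; ring
        have hF : (0 : ℝ) < (N.factorial : ℝ) := by exact_mod_cast hFpos
        have goal : ((D A + A.card : ℕ) : ℝ) ≤ ((c * (N + 1).factorial * ((N + 1).choose 2 + c)
            + 2 * (c * (c' * N.factorial)) + c' * N.factorial * (N.choose 2 + c') : ℕ) : ℝ) := by
          push_cast
          rw [Nat.cast_choose_two, Nat.cast_choose_two, hf]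
          push_cast at hm ⊢
          rw [hf, hmR] at hm
          rw [hmR]
          apply le_of_mul_le_mul_left _ hF
          nlinarith [hm]
        exact_mod_cast goal
      have h1 := bd_add_D A
      have h2 := bd_add_D X
      rw [hcard] at h2
      rw [lexInit_eq X hcard hX2]
      omega
    · have hceq : c = N + 2 := le_antisymm hcle hcN
      have hqeq : q = (N + 2) * (N + 1) := by
        apply le_antisymm hq2
        rw [← hqc, hceq, Nat.mul_comm]
        omega
      refine bd_lex_le (k := N + 2) (c := 1) (by omega) (by omega) A ?_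
      rw [hq, hqeq, one_mul, Nat.factorial_succ (N + 1), Nat.factorial_succ N]
      ring

end Pool.H98.BE
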