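import Pool.Agent.H98.BE.Spec

set_option autoImplicit false

/-!
# The quadratic form inequality on functions on the symmetric group
-/

open Finset Equiv
open scoped InnerProductSpace

namespace Pool.H98.BE

variable {n : ℕ}

section comm

variable {α : Type*} [Fintype α] [DecidableEq α]
variable {V : Type*} [NormedAddCommGroup V] [InnerProductSpace ℝ V]
variable {ρ : Perm α →* (V →ₗ[ℝ] V)}

theorem quad_T2_apply (w : V) :
    T2 ρ (univ : Finset α) w = ∑ p : α, ∑ q ∈ univ.erase p, ρ (Equiv.swap p q) w := by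
  unfold T2 J
  simp only [LinearMap.sum_apply]

theorem quad_C_apply (w : V) : C ρ (univ : Finset α) w = ∑ σ ∈ cyc (univ : Finset α), ρ σ w := by
  unfold C
  simp only [LinearMap.sum_apply]

theorem quad_T2_comm (s : Perm α) (w : V) :
    T2 ρ (univ : Finset α) (ρ s w) = ρ s (T2 ρ (univ : Finset α) w) := by
  rw [quad_T2_apply, quad_T2_apply, map_sum]
  rw [← Equiv.sum_comp s fun p => ∑ q ∈ univ.erase p, ρ (Equiv.swap p q) (ρ s w)]
  refine Finset.sum_congr rfl fun p _ => ?_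
  rw [map_sum]
  symm
  refine Finset.sum_equiv s ?_ ?_
  · intro q
    simp
  · intro q _
    have h1 : s * Equiv.swap p q = Equiv.swap (s p) (s q) * s := by
      rw [Equiv.mul_swap_eq_swap_mul]
    have h2 : ρ s (ρ (Equiv.swap p q) w) = ρ (s * Equiv.swap p q) w := by
      rw [map_mul]
      rfl
    have h3 : ρ (Equiv.swap (s p) (s q)) (ρ s w) = ρ (Equiv.swap (s p) (s q) * s) w := by
      rw [map_mul]
      rfl
    rw [h2, h1, h3]

theorem quad_C_comm (s : Perm α) (w : V) :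
    C ρ (univ : Finset α) (ρ s w) = ρ s (C ρ (univ : Finset α) w) := by
  rw [quad_C_apply, quad_C_apply, map_sum]
  symm
  refine Finset.sum_bij' (fun σ _ => s * σ * s⁻¹) (fun σ _ => s⁻¹ * σ * s) ?_ ?_ ?_ ?_ ?_
  · intro σ hσ
    exact conj_mem_cyc hσ (by simp)
  · intro σ hσ
    have := conj_mem_cyc (τ := s⁻¹) hσ (by simp)
    rwa [inv_inv] at this
  · intro σ _
    group
  · intro σ _
    group
  · intro σ _
    have h2 : ρ s (ρ σ w) = ρ (s * σ) w := by
      rw [map_mul]
      rfl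
    have h3 : ρ (s * σ * s⁻¹) (ρ s w) = ρ (s * σ * s⁻¹ * s) w := by
      rw [map_mul ρ (s * σ * s⁻¹) s]
      rfl
    rw [h2, h3, inv_mul_cancel_right]

end comm

/-- the space of functions on the symmetric group -/
abbrev QV (n : ℕ) := EuclideanSpace ℝ (Perm (Fin n))

/-- the right regular representation -/
noncomputable def qrho (n : ℕ) : Perm (Fin n) →* (QV n →ₗ[ℝ] QV n) where
  toFun σ :=
    { toFun := fun f => WithLp.toLp 2 (fun t => f (t * σ))
      map_add' := fun f g => by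
        ext t
        rfl
      map_smul' := fun c f => by
        ext t
        rfl }
  map_one' := by
    ext f t
    change f (t * 1) = f t
    rw [mul_one]
  map_mul' σ τ := by
    ext f t
    change f (t * (σ * τ)) = f (t * σ * τ)
    rw [mul_assoc]

theorem qrho_apply (σ : Perm (Fin n)) (f : QV n) (t : Perm (Fin n)) :
    qrho n σ f t = f (t * σ) := rfl

theorem qinner (f g : QV n) : ⟪f, g⟫_ℝ = ∑ t, f t * g t := by
  rw [PiLp.inner_apply]
  refine Finset.sum_congr rfl fun t _ => ?_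
  simp only [RCLike.inner_apply, conj_trivial]
  ring

theorem qrho_inner (σ : Perm (Fin n)) (f g : QV n) :
    ⟪qrho n σ f, qrho n σ g⟫_ℝ = ⟪f, g⟫_ℝ := by
  rw [qinner, qinner]
  exact Equiv.sum_comp (Equiv.mulRight σ) fun t => f t * g t

/-- the sum of the values -/
noncomputable def qsum (n : ℕ) : QV n →ₗ[ℝ] ℝ where
  toFun f := ∑ t, f t
  map_add' f g := by
    rw [← Finset.sum_add_distrib]
    rfl
  map_smul' c f := by
    simp only [PiLp.smul_apply, smul_eq_mul, RingHom.id_apply]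
    rw [Finset.mul_sum]

theorem qsum_apply (f : QV n) : qsum n f = ∑ t, f t := rfl

theorem qsum_rho (σ : Perm (Fin n)) (f : QV n) : qsum n (qrho n σ f) = qsum n f :=
  Equiv.sum_comp (Equiv.mulRight σ) fun t => f t

/-- the operator of the quadratic form -/
noncomputable def qH (n : ℕ) : QV n →ₗ[ℝ] QV n :=
  ((n - 2).factorial : ℝ) • T2 (qrho n) (univ : Finset (Fin n)) +
    (2 * ((n : ℝ) - 2)) • C (qrho n) (univ : Finset (Fin n))

theorem qH_apply (f : QV n) : qH n f =
    ((n - 2).factorial : ℝ) • T2 (qrho n) (univ : Finset (Fin n)) f +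
    (2 * ((n : ℝ) - 2)) • C (qrho n) (univ : Finset (Fin n)) f := rfl

theorem qH_comm (s : Perm (Fin n)) (f : QV n) : qH n (qrho n s f) = qrho n s (qH n f) := by
  rw [qH_apply, qH_apply, quad_T2_comm, quad_C_comm, map_add, map_smul, map_smul]

theorem qH_symm : (qH n).IsSymmetric := by
  have h1 := T2_symm (ρ := qrho n) qrho_inner (univ : Finset (Fin n))
  have h2 := C_symm (ρ := qrho n) qrho_inner (univ : Finset (Fin n))
  intro f g
  rw [qH_apply, qH_apply, inner_add_left, inner_add_right, inner_smul_left, inner_smul_left,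
    inner_smul_right, inner_smul_right, h1 f g, h2 f g]
  simp only [conj_trivial]

theorem qsum_T2 (f : QV n) : qsum n (T2 (qrho n) (univ : Finset (Fin n)) f) =
    (n : ℝ) * ((n : ℝ) - 1) * qsum n f := by
  rw [quad_T2_apply, map_sum]
  have h1 : ∀ p : Fin n, qsum n (∑ q ∈ univ.erase p, qrho n (Equiv.swap p q) f) =
      ((n : ℝ) - 1) * qsum n f := by
    intro p
    rw [map_sum]
    simp only [qsum_rho]
    rw [Finset.sum_const, Finset.card_erase_of_mem (Finset.mem_univ p), Finset.card_univ,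
      Fintype.card_fin, nsmul_eq_mul]
    have hn : 1 ≤ n := p.pos
    rw [Nat.cast_sub hn, Nat.cast_one]
  simp only [h1]
  rw [Finset.sum_const, Finset.card_univ, Fintype.card_fin, nsmul_eq_mul, mul_assoc]

theorem qsum_C (hn : 3 ≤ n) (f : QV n) : qsum n (C (qrho n) (univ : Finset (Fin n)) f) =
    ((n - 1).factorial : ℝ) * qsum n f := by
  rw [quad_C_apply, map_sum]
  simp only [qsum_rho]
  rw [Finset.sum_const, card_cyc (by rw [Finset.card_univ, Fintype.card_fin]; omega),
    Finset.card_univ, Fintype.card_fin, nsmul_eq_mul]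

theorem qsum_H (hn : 3 ≤ n) (f : QV n) : qsum n (qH n f) =
    (((n - 2).factorial : ℝ) * ((n : ℝ) * ((n : ℝ) - 1)) +
      2 * ((n : ℝ) - 2) * ((n - 1).factorial : ℝ)) * qsum n f := by
  rw [qH_apply, map_add, map_smul, map_smul, qsum_T2, qsum_C hn]
  simp only [smul_eq_mul]
  ring

theorem fact_sub_one (hn : 3 ≤ n) :
    ((n - 1).factorial : ℝ) = ((n : ℝ) - 1) * ((n - 2).factorial : ℝ) := by
  obtain ⟨k, rfl⟩ := Nat.exists_eq_add_of_le hn
  have h1 : 3 + k - 1 = (k + 1) + 1 := by omega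
  have h2 : 3 + k - 2 = k + 1 := by omega
  rw [h1, h2, Nat.factorial_succ]
  push_cast
  ring

theorem fact_sub_two (hn : 3 ≤ n) :
    ((n - 2).factorial : ℝ) = ((n : ℝ) - 2) * ((n - 3).factorial : ℝ) := by
  obtain ⟨k, rfl⟩ := Nat.exists_eq_add_of_le hn
  have h1 : 3 + k - 2 = k + 1 := by omega
  have h2 : 3 + k - 3 = k := by omega
  rw [h1, h2, Nat.factorial_succ]
  push_cast
  ring

/-- a function fixed by all transpositions is constant -/
theorem qconst {f : QV n} (h : ∀ x y : Fin n, qrho n (Equiv.swap x y) f = f)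
    (σ : Perm (Fin n)) : f σ = f 1 := by
  induction σ using Equiv.Perm.swap_induction_on' with
  | one => rfl
  | mul_swap σ x y hxy ih =>
    have h1 : qrho n (Equiv.swap x y) f σ = f σ := by rw [h]
    rw [qrho_apply] at h1
    rw [h1, ih]

/-- the bound on the largest eigenvalue on the functions of sum zero -/
theorem q_main (hn : 3 ≤ n) (f : QV n) (hf : qsum n f = 0) :
    ⟪qH n f, f⟫_ℝ ≤ ((n - 2).factorial : ℝ) * (((n : ℝ) - 1) * ((n : ℝ) - 4)) * ⟪f, f⟫_ℝ := by
  set W0 : Submodule ℝ (QV n) := LinearMap.ker (qsum n) with hW0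
  by_cases hbot : W0 = ⊥
  · have h0 : f = 0 := by
      have : f ∈ W0 := hf
      rwa [hbot, Submodule.mem_bot] at this
    rw [h0, inner_zero_right, inner_zero_right, mul_zero]
  have hHW0 : ∀ w ∈ W0, qH n w ∈ W0 := by
    intro w hw
    have hw' : qsum n w = 0 := hw
    rw [hW0, LinearMap.mem_ker, qsum_H hn, hw', mul_zero]
  obtain ⟨c, w, hwW, hw0, hwc, hmin⟩ := exists_min_eig (-qH n) (by
      intro u v
      rw [LinearMap.neg_apply, LinearMap.neg_apply, inner_neg_left, inner_neg_right, qH_symm u v])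
    W0 hbot (fun w hw => by
      rw [LinearMap.neg_apply]
      exact W0.neg_mem (hHW0 w hw))
  have hHw : qH n w = (-c) • w := by
    rw [LinearMap.neg_apply] at hwc
    rw [neg_smul, ← hwc, neg_neg]
  -- the eigenspace
  set W1 : Submodule ℝ (QV n) := W0 ⊓ LinearMap.ker (qH n - (-c) • LinearMap.id) with hW1
  have hmem1 : ∀ v, v ∈ W1 ↔ qsum n v = 0 ∧ qH n v = (-c) • v := by
    intro v
    rw [hW1, Submodule.mem_inf, hW0, LinearMap.mem_ker, LinearMap.mem_ker, LinearMap.sub_apply,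
      LinearMap.smul_apply, LinearMap.id_apply, sub_eq_zero]
  have hW1ne : W1 ≠ ⊥ := by
    intro h
    apply hw0
    rw [← Submodule.mem_bot ℝ, ← h, hmem1]
    exact ⟨hwW, hHw⟩
  have hW1inv : ∀ s : Perm (Fin n), ∀ v ∈ W1, qrho n s v ∈ W1 := by
    intro s v hv
    rw [hmem1] at hv ⊢
    refine ⟨by rw [qsum_rho, hv.1], ?_⟩
    rw [qH_comm, hv.2, map_smul]
  have hT2W1 : ∀ v ∈ W1, T2 (qrho n) (univ : Finset (Fin n)) v ∈ W1 := by
    intro v hv
    rw [quad_T2_apply]
    exact W1.sum_mem fun p _ => W1.sum_mem fun q _ => hW1inv _ v hv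
  obtain ⟨t2, u, huW, hu0, hut, -⟩ := exists_min_eig (T2 (qrho n) (univ : Finset (Fin n)))
    (T2_symm (ρ := qrho n) qrho_inner _) W1 hW1ne hT2W1
  set W : Submodule ℝ (QV n) :=
    W1 ⊓ LinearMap.ker (T2 (qrho n) (univ : Finset (Fin n)) - t2 • LinearMap.id) with hW
  have hmem : ∀ v, v ∈ W ↔ v ∈ W1 ∧ T2 (qrho n) (univ : Finset (Fin n)) v = t2 • v := by
    intro v
    rw [hW, Submodule.mem_inf, LinearMap.mem_ker, LinearMap.sub_apply,
      LinearMap.smul_apply, LinearMap.id_apply, sub_eq_zero]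
  have hWne : W ≠ ⊥ := by
    intro h
    apply hu0
    rw [← Submodule.mem_bot ℝ, ← h, hmem]
    exact ⟨huW, hut⟩
  have hn' : (3 : ℝ) ≤ n := by exact_mod_cast hn
  have hcoef : 0 < 2 * ((n : ℝ) - 2) := by linarith
  set κ : ℝ := (-c - ((n - 2).factorial : ℝ) * t2) / (2 * ((n : ℝ) - 2)) with hκ
  have hCW : ∀ v ∈ W, C (qrho n) (univ : Finset (Fin n)) v = κ • v := by
    intro v hv
    rw [hmem, hmem1] at hv
    obtain ⟨⟨-, h1⟩, h2⟩ := hv
    rw [qH_apply, h2, smul_smul] at h1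
    have h3 : (2 * ((n : ℝ) - 2)) • C (qrho n) (univ : Finset (Fin n)) v =
        (-c - ((n - 2).factorial : ℝ) * t2) • v := by
      rw [sub_smul, ← h1, add_sub_cancel_left]
    rw [hκ, div_eq_inv_mul, mul_smul, ← h3, smul_smul, inv_mul_cancel₀ hcoef.ne', one_smul]
  have htne : 2 * (t2 / 2) ≠ (n : ℝ) * ((n : ℝ) - 1) := by
    intro h
    apply hu0
    have h1 : T2 (qrho n) (univ : Finset (Fin n)) u =
        (((univ : Finset (Fin n)).card : ℝ) * (((univ : Finset (Fin n)).card : ℝ) - 1)) • u := by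
      rw [Finset.card_univ, Fintype.card_fin, hut, ← h]
      congr 1
      ring
    have h2 := fixed_of_T2_max (ρ := qrho n) qrho_inner h1
    have h3 : ∀ σ, u σ = u 1 := qconst fun x y => h2 x (Finset.mem_univ x) y (Finset.mem_univ y)
    have h4 : qsum n u = 0 := ((hmem1 u).1 huW).1
    rw [qsum_apply, Finset.sum_congr rfl fun σ _ => h3 σ, Finset.sum_const, nsmul_eq_mul] at h4
    have h5 : u 1 = 0 := by
      refine (mul_eq_zero.1 h4).resolve_left ?_
      rw [Finset.card_univ]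
      exact_mod_cast Fintype.card_ne_zero
    ext σ
    rw [h3 σ, h5]
    rfl
  have hspec := spec_bound (ρ := qrho n) qrho_inner n hn (univ : Finset (Fin n))
    (by rw [Finset.card_univ, Fintype.card_fin]) W hWne
    (fun x _ y _ v hv => by
      rw [hmem] at hv ⊢
      refine ⟨hW1inv _ v hv.1, ?_⟩
      rw [quad_T2_comm, hv.2, map_smul])
    (t2 / 2) κ (fun v hv => by
      rw [((hmem v).1 hv).2]
      congr 1
      ring) hCW htne
  have hκ2 := hspec.2.1
  have hh : -c = ((n - 2).factorial : ℝ) * t2 + 2 * ((n : ℝ) - 2) * κ := by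
    have h0 : κ * (2 * ((n : ℝ) - 2)) = -c - ((n - 2).factorial : ℝ) * t2 :=
      div_mul_cancel₀ _ hcoef.ne'
    linarith
  have hle : -c ≤ ((n - 2).factorial : ℝ) * (((n : ℝ) - 1) * ((n : ℝ) - 4)) := by
    have h1 := mul_le_mul_of_nonneg_left hκ2 hcoef.le
    have h2 := fact_sub_two hn
    rw [hh]
    refine (add_le_add_right h1 _).trans (le_of_eq ?_)
    rw [h2]
    ring
  have h1 := hmin f hf
  rw [LinearMap.neg_apply, inner_neg_left] at h1
  have h2 : 0 ≤ ⟪f, f⟫_ℝ := real_inner_self_nonneg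
  nlinarith [mul_le_mul_of_nonneg_right hle h2]

theorem quad_bound (hn : 3 ≤ n) (f : Perm (Fin n) → ℝ) :
    ((n - 2).factorial : ℝ)
        * ∑ x : Fin n, ∑ y ∈ univ.erase x, ∑ τ, f τ * f (τ * Equiv.swap x y)
      + 2 * ((n : ℝ) - 2) * ∑ σ ∈ cyc (univ : Finset (Fin n)), ∑ τ, f τ * f (τ * σ)
      ≤ 2 * (∑ τ, f τ) ^ 2
        + ((n - 2).factorial : ℝ) * (((n : ℝ) - 1) * ((n : ℝ) - 4)) * ∑ τ, f τ ^ 2 := by
  have hn' : (3 : ℝ) ≤ n := by exact_mod_cast hn
  set F : QV n := WithLp.toLp 2 f with hF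
  have hFa : ∀ t, F t = f t := fun t => rfl
  -- the left side
  have hT : ⟪T2 (qrho n) (univ : Finset (Fin n)) F, F⟫_ℝ =
      ∑ x : Fin n, ∑ y ∈ univ.erase x, ∑ τ, f τ * f (τ * Equiv.swap x y) := by
    rw [quad_T2_apply, sum_inner]
    refine Finset.sum_congr rfl fun x _ => ?_
    rw [sum_inner]
    refine Finset.sum_congr rfl fun y _ => ?_
    rw [qinner]
    refine Finset.sum_congr rfl fun τ _ => ?_
    rw [qrho_apply, hFa, hFa, mul_comm]
  have hC : ⟪C (qrho n) (univ : Finset (Fin n)) F, F⟫_ℝ =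
      ∑ σ ∈ cyc (univ : Finset (Fin n)), ∑ τ, f τ * f (τ * σ) := by
    rw [quad_C_apply, sum_inner]
    refine Finset.sum_congr rfl fun σ _ => ?_
    rw [qinner]
    refine Finset.sum_congr rfl fun τ _ => ?_
    rw [qrho_apply, hFa, hFa, mul_comm]
  have hL : ⟪qH n F, F⟫_ℝ = ((n - 2).factorial : ℝ)
        * ∑ x : Fin n, ∑ y ∈ univ.erase x, ∑ τ, f τ * f (τ * Equiv.swap x y)
      + 2 * ((n : ℝ) - 2) * ∑ σ ∈ cyc (univ : Finset (Fin n)), ∑ τ, f τ * f (τ * σ) := by
    rw [qH_apply, inner_add_left, inner_smul_left, inner_smul_left, hT, hC]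
    simp only [conj_trivial]
  rw [← hL]
  -- the decomposition
  set e : QV n := WithLp.toLp 2 (fun _ => (1 : ℝ)) with he
  have hea : ∀ t, e t = 1 := fun t => rfl
  set N : ℝ := (Fintype.card (Perm (Fin n)) : ℝ) with hN
  have hNpos : 0 < N := by
    rw [hN]
    exact_mod_cast Fintype.card_pos
  have hNf : N = (n : ℝ) * ((n - 1).factorial : ℝ) := by
    rw [hN, Fintype.card_perm, Fintype.card_fin]
    obtain ⟨k, rfl⟩ := Nat.exists_eq_add_of_le hn
    have h1 : 3 + k = (k + 2) + 1 := by omega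
    have h2 : 3 + k - 1 = k + 2 := by omega
    rw [h2]
    conv_lhs => rw [h1, Nat.factorial_succ]
    push_cast
    ring
  have hee : ⟪e, e⟫_ℝ = N := by
    rw [qinner]
    simp only [hea, mul_one]
    rw [Finset.sum_const, Finset.card_univ, nsmul_eq_mul, mul_one]
  have hfe : ∀ g : QV n, ⟪g, e⟫_ℝ = qsum n g := by
    intro g
    rw [qinner, qsum_apply]
    simp only [hea, mul_one]
  set m : ℝ := qsum n F / N with hm
  set F0 : QV n := F - m • e with hF0
  have hsum0 : qsum n F0 = 0 := by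
    rw [hF0, map_sub, map_smul, ← hfe e, hee, smul_eq_mul, hm, div_mul_cancel₀ _ hNpos.ne',
      sub_self]
  have hmain := q_main hn F0 hsum0
  have hFdec : F = m • e + F0 := by
    rw [hF0]
    abel
  set lam : ℝ := ((n - 2).factorial : ℝ) * ((n : ℝ) * ((n : ℝ) - 1)) +
      2 * ((n : ℝ) - 2) * ((n - 1).factorial : ℝ) with hlam
  -- the inner products
  have e1 : ⟪qH n e, e⟫_ℝ = lam * N := by
    rw [hfe, qsum_H hn, ← hfe e, hee]
  have e2 : ⟪qH n F0, e⟫_ℝ = 0 := by
    rw [hfe, qsum_H hn, hsum0, mul_zero]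
  have e3 : ⟪qH n e, F0⟫_ℝ = 0 := by
    rw [qH_symm e F0, real_inner_comm, e2]
  have e4 : ⟪F0, e⟫_ℝ = 0 := by rw [hfe, hsum0]
  have h1 : ⟪qH n F, F⟫_ℝ = m ^ 2 * (lam * N) + ⟪qH n F0, F0⟫_ℝ := by
    rw [hFdec, map_add, map_smul, inner_add_left, inner_add_right, inner_add_right,
      inner_smul_left, inner_smul_left, inner_smul_right, inner_smul_right, e1, e2, e3]
    simp only [conj_trivial]
    ring
  have h2 : ∑ τ, f τ ^ 2 = m ^ 2 * N + ⟪F0, F0⟫_ℝ := by
    have h3 : ∑ τ, f τ ^ 2 = ⟪F, F⟫_ℝ := by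
      rw [qinner]
      refine Finset.sum_congr rfl fun τ _ => ?_
      rw [hFa, sq]
    rw [h3, hFdec, inner_add_left, inner_add_right, inner_add_right,
      inner_smul_left, inner_smul_left, inner_smul_right, inner_smul_right, hee, e4,
      real_inner_comm, e4]
    simp only [conj_trivial]
    ring
  have h3 : ∑ τ, f τ = m * N := by
    have : ∑ τ, f τ = qsum n F := rfl
    rw [this, hm, div_mul_cancel₀ _ hNpos.ne']
  rw [h1, h2, h3]
  have h4 : lam * N = 2 * N ^ 2 +
      ((n - 2).factorial : ℝ) * (((n : ℝ) - 1) * ((n : ℝ) - 4)) * N := by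
    have h5 := fact_sub_one hn
    have h6 : lam = 2 * N + ((n - 2).factorial : ℝ) * (((n : ℝ) - 1) * ((n : ℝ) - 4)) := by
      rw [hlam, hNf, h5]
      ring
    rw [h6]
    ring
  rw [h4]
  nlinarith [hmain]

end Pool.H98.BE
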