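import Pool.Agent.H98.BE.Cyc

set_option autoImplicit false

/-!
# Operators attached to transpositions and cycles in an orthogonal representation
-/

open Finset Equiv
open scoped InnerProductSpace

namespace Pool.H98.BE

variable {α : Type*} [Fintype α] [DecidableEq α]
variable {V : Type*} [NormedAddCommGroup V] [InnerProductSpace ℝ V] [FiniteDimensional ℝ V]

/-- the star operator at `p` inside `S` -/
def J (ρ : Perm α →* (V →ₗ[ℝ] V)) (S : Finset α) (p : α) : V →ₗ[ℝ] V :=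
  ∑ q ∈ S.erase p, ρ (Equiv.swap p q)

/-- twice the sum of the transpositions supported in `S` -/
def T2 (ρ : Perm α →* (V →ₗ[ℝ] V)) (S : Finset α) : V →ₗ[ℝ] V := ∑ p ∈ S, J ρ S p

/-- the sum of the cycles with support `S` -/
noncomputable def C (ρ : Perm α →* (V →ₗ[ℝ] V)) (S : Finset α) : V →ₗ[ℝ] V :=
  ∑ σ ∈ cyc S, ρ σ

variable {ρ : Perm α →* (V →ₗ[ℝ] V)}

omit [Fintype α] [FiniteDimensional ℝ V] in
private theorem SpecBasic_J_apply (S : Finset α) (p : α) (w : V) :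
    J ρ S p w = ∑ q ∈ S.erase p, ρ (Equiv.swap p q) w := by
  rw [J, LinearMap.sum_apply]

omit [Fintype α] [FiniteDimensional ℝ V] in
private theorem SpecBasic_T2_apply (S : Finset α) (w : V) :
    T2 ρ S w = ∑ p ∈ S, J ρ S p w := by
  rw [T2, LinearMap.sum_apply]

omit [FiniteDimensional ℝ V] in
private theorem SpecBasic_C_apply (S : Finset α) (w : V) :
    C ρ S w = ∑ σ ∈ cyc S, ρ σ w := by
  rw [C, LinearMap.sum_apply]

omit [Fintype α] [FiniteDimensional ℝ V] in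
private theorem SpecBasic_mul (σ τ : Perm α) (w : V) : ρ (σ * τ) w = ρ σ (ρ τ w) := by
  rw [map_mul]
  rfl

omit [Fintype α] [FiniteDimensional ℝ V] in
private theorem SpecBasic_one (w : V) : ρ (1 : Perm α) w = w := by
  rw [map_one]
  rfl

private theorem SpecBasic_ind {S : Finset α} (P : Perm α → Prop) (h1 : P 1)
    (hs : ∀ x ∈ S, ∀ y ∈ S, ∀ τ, P τ → P (Equiv.swap x y * τ)) :
    ∀ σ : Perm α, σ.support ⊆ S → P σ := by
  have key : ∀ n : ℕ, ∀ σ : Perm α, σ.support.card = n → σ.support ⊆ S → P σ := by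
    intro n
    induction n using Nat.strong_induction_on with
    | _ n ih =>
      intro σ hn hσ
      by_cases h0 : σ = 1
      · rw [h0]
        exact h1
      · obtain ⟨x, hx⟩ : ∃ x, σ x ≠ x := by
          by_contra hc
          push Not at hc
          exact h0 (Equiv.ext hc)
        have hxS : x ∈ S := hσ (Equiv.Perm.mem_support.mpr hx)
        have hyS : σ x ∈ S := hσ (Equiv.Perm.mem_support.mpr fun h => hx (σ.injective h))
        have h2 := Equiv.Perm.card_support_swap_mul hx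
        have h3 : (Equiv.swap x (σ x) * σ).support ⊆ S := by
          refine (Equiv.Perm.support_mul_le _ _).trans ?_
          refine sup_le ?_ hσ
          rw [Equiv.Perm.support_swap hx.symm]
          intro z hz
          rw [Finset.mem_insert, Finset.mem_singleton] at hz
          rcases hz with rfl | rfl
          · exact hxS
          · exact hyS
        have h4 := hs x hxS (σ x) hyS _ (ih _ (hn ▸ h2) _ rfl h3)
        rwa [← mul_assoc, Equiv.swap_mul_self, one_mul] at h4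
  exact fun σ => key _ σ rfl

theorem T2_erase {S : Finset α} {p : α} (hp : p ∈ S) (w : V) :
    T2 ρ S w = T2 ρ (S.erase p) w + (2 : ℝ) • J ρ S p w := by
  rw [SpecBasic_T2_apply, SpecBasic_T2_apply, ← Finset.add_sum_erase S _ hp]
  have h1 : ∀ a ∈ S.erase p, J ρ S a w = ρ (Equiv.swap p a) w + J ρ (S.erase p) a w := by
    intro a ha
    rw [Finset.mem_erase] at ha
    have hp' : p ∈ S.erase a := Finset.mem_erase.mpr ⟨ha.1.symm, hp⟩
    rw [SpecBasic_J_apply, SpecBasic_J_apply, ← Finset.add_sum_erase (S.erase a) _ hp',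
      Equiv.swap_comm a p, Finset.erase_right_comm]
  rw [Finset.sum_congr rfl h1, Finset.sum_add_distrib, ← SpecBasic_J_apply, two_smul]
  abel

theorem C_insert {S : Finset α} {p : α} (hp : p ∈ S) (hS : 3 ≤ S.card) (w : V) :
    C ρ S w = J ρ S p (C ρ (S.erase p) w) := by
  rw [SpecBasic_C_apply, sum_cyc_insert hp hS, SpecBasic_J_apply]
  refine Finset.sum_congr rfl fun q _ => ?_
  rw [SpecBasic_C_apply, map_sum]
  exact Finset.sum_congr rfl fun σ _ => SpecBasic_mul _ _ _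

/-- `J ρ S p` commutes with the transpositions supported in `S.erase p` -/
theorem J_comm_swap {S : Finset α} {p x y : α} (hx : x ∈ S.erase p) (hy : y ∈ S.erase p) (w : V) :
    J ρ S p (ρ (Equiv.swap x y) w) = ρ (Equiv.swap x y) (J ρ S p w) := by
  rw [Finset.mem_erase] at hx hy
  rw [SpecBasic_J_apply, SpecBasic_J_apply, map_sum]
  have hmem : ∀ q ∈ S.erase p, Equiv.swap x y q ∈ S.erase p := by
    intro q hq
    by_cases h1 : q = x
    · rw [h1, Equiv.swap_apply_left]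
      exact Finset.mem_erase.mpr hy
    · by_cases h2 : q = y
      · rw [h2, Equiv.swap_apply_right]
        exact Finset.mem_erase.mpr hx
      · rw [Equiv.swap_apply_of_ne_of_ne h1 h2]
        exact hq
  symm
  refine Finset.sum_bij' (fun q _ => Equiv.swap x y q) (fun q _ => Equiv.swap x y q) hmem hmem
    (fun q _ => Equiv.swap_apply_self x y q) (fun q _ => Equiv.swap_apply_self x y q) ?_
  intro q _
  rw [← SpecBasic_mul, ← SpecBasic_mul, Equiv.mul_swap_eq_swap_mul,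
    Equiv.swap_apply_of_ne_of_ne hx.1.symm hy.1.symm]

/-- `C ρ (S.erase p)` preserves a submodule preserved by the transpositions in `S.erase p` -/
theorem C_mem {S : Finset α} (W : Submodule ℝ V)
    (hinv : ∀ x ∈ S, ∀ y ∈ S, ∀ w ∈ W, ρ (Equiv.swap x y) w ∈ W) {w : V} (hw : w ∈ W) :
    C ρ S w ∈ W := by
  rw [SpecBasic_C_apply]
  refine Submodule.sum_mem _ fun σ hσ => ?_
  refine SpecBasic_ind (S := S) (fun σ => ρ σ w ∈ W) ?_ ?_ σ (mem_cyc.mp hσ).2.le
  · rw [SpecBasic_one]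
    exact hw
  · intro x hx y hy τ hτ
    rw [SpecBasic_mul]
    exact hinv x hx y hy _ hτ

/-- `J ρ S p` commutes with `C ρ (S.erase p)` -/
theorem J_comm_C {S : Finset α} {p : α} (hp : p ∈ S) (w : V) :
    J ρ S p (C ρ (S.erase p) w) = C ρ (S.erase p) (J ρ S p w) := by
  rw [SpecBasic_C_apply, SpecBasic_C_apply, map_sum]
  refine Finset.sum_congr rfl fun σ hσ => ?_
  refine SpecBasic_ind (S := S.erase p) (fun σ => J ρ S p (ρ σ w) = ρ σ (J ρ S p w)) ?_ ?_ σ
    (mem_cyc.mp hσ).2.le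
  · rw [SpecBasic_one, SpecBasic_one]
  · intro x hx y hy τ hτ
    rw [SpecBasic_mul, SpecBasic_mul, J_comm_swap hx hy, hτ]

theorem J_mem {S : Finset α} {p : α} (hp : p ∈ S) (W : Submodule ℝ V)
    (hinv : ∀ x ∈ S, ∀ y ∈ S, ∀ w ∈ W, ρ (Equiv.swap x y) w ∈ W) {w : V} (hw : w ∈ W) :
    J ρ S p w ∈ W := by
  rw [SpecBasic_J_apply]
  exact Submodule.sum_mem _ fun q hq => hinv p hp q (Finset.mem_of_mem_erase hq) w hw

/-- a symmetric operator preserving a nonzero submodule has a smallest eigenvalue there -/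
theorem exists_min_eig (A : V →ₗ[ℝ] V) (hA : A.IsSymmetric) (W : Submodule ℝ V) (hW : W ≠ ⊥)
    (hAW : ∀ w ∈ W, A w ∈ W) :
    ∃ (c : ℝ) (w : V), w ∈ W ∧ w ≠ 0 ∧ A w = c • w ∧ ∀ v ∈ W, c * ⟪v, v⟫_ℝ ≤ ⟪A v, v⟫_ℝ := by
  have : Nontrivial W := (Submodule.nontrivial_iff_ne_bot).mpr hW
  obtain ⟨T, hTdef⟩ : ∃ T : W →ₗ[ℝ] W, T = A.restrict hAW := ⟨_, rfl⟩
  have hTA : ∀ x : W, ((T x : W) : V) = A x := fun x => by
    rw [hTdef]
    rfl
  have hT : T.IsSymmetric := fun x y => by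
    rw [Submodule.coe_inner, Submodule.coe_inner, hTA, hTA]
    exact hA x y
  have hE := hT.hasEigenvalue_iInf_of_finiteDimensional
  obtain ⟨c, hc⟩ : ∃ c : ℝ, c = ⨅ x : { x : W // x ≠ 0 }, RCLike.re ⟪T x, x⟫_ℝ / ‖(x : W)‖ ^ 2 :=
    ⟨_, rfl⟩
  rw [← hc] at hE
  obtain ⟨w, hw⟩ := hE.exists_hasEigenvector
  refine ⟨c, w, w.2, fun h => hw.2 (Subtype.ext h), ?_, ?_⟩
  · have h1 := hw.apply_eq_smul
    rw [← hTA, h1]
    rfl
  · intro v hv
    by_cases hv0 : v = 0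
    · rw [hv0, map_zero, inner_zero_left, mul_zero]
    · have hv0' : (⟨v, hv⟩ : W) ≠ 0 := fun h => hv0 (congrArg Subtype.val h)
      have hbdd : BddBelow (Set.range fun x : { x : W // x ≠ 0 } =>
          RCLike.re ⟪T x, x⟫_ℝ / ‖(x : W)‖ ^ 2) := by
        refine ⟨-‖LinearMap.toContinuousLinearMap T‖, ?_⟩
        rintro _ ⟨x, rfl⟩
        have hx : 0 < ‖(x : W)‖ := norm_pos_iff.mpr x.2
        have h1 : ‖⟪T x, (x : W)⟫_ℝ‖ ≤ ‖LinearMap.toContinuousLinearMap T‖ * ‖(x : W)‖ ^ 2 := by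
          refine (norm_inner_le_norm _ _).trans ?_
          have h2 := (LinearMap.toContinuousLinearMap T).le_opNorm (x : W)
          rw [pow_two, ← mul_assoc]
          exact mul_le_mul_of_nonneg_right h2 hx.le
        rw [Real.norm_eq_abs, abs_le] at h1
        show _ ≤ RCLike.re ⟪T x, (x : W)⟫_ℝ / ‖(x : W)‖ ^ 2
        rw [le_div_iff₀ (by positivity), neg_mul]
        exact h1.1
      have h1 := ciInf_le hbdd ⟨⟨v, hv⟩, hv0'⟩
      rw [← hc] at h1
      have hvp : 0 < ‖v‖ := norm_pos_iff.mpr hv0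
      have h2 : c ≤ ⟪A v, v⟫_ℝ / ‖v‖ ^ 2 := by
        refine h1.trans (le_of_eq ?_)
        have e1 : ⟪T ⟨v, hv⟩, (⟨v, hv⟩ : W)⟫_ℝ = ⟪A v, v⟫_ℝ := by
          rw [Submodule.coe_inner, hTA]
        show RCLike.re ⟪T ⟨v, hv⟩, (⟨v, hv⟩ : W)⟫_ℝ / ‖(⟨v, hv⟩ : W)‖ ^ 2 = _
        rw [e1]
        rfl
      rw [le_div_iff₀ (by positivity)] at h2
      rw [real_inner_self_eq_norm_sq]
      exact h2

section orth

variable (hρ : ∀ (σ : Perm α) (u v : V), ⟪ρ σ u, ρ σ v⟫_ℝ = ⟪u, v⟫_ℝ)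
include hρ

theorem swap_symm (x y : α) (u v : V) :
    ⟪ρ (Equiv.swap x y) u, v⟫_ℝ = ⟪u, ρ (Equiv.swap x y) v⟫_ℝ := by
  have h1 : v = ρ (Equiv.swap x y) (ρ (Equiv.swap x y) v) := by
    rw [← SpecBasic_mul, Equiv.swap_mul_self, SpecBasic_one]
  conv_lhs => rw [h1]
  rw [hρ]

theorem J_symm (S : Finset α) (p : α) : (J ρ S p).IsSymmetric := by
  intro u v
  rw [SpecBasic_J_apply, SpecBasic_J_apply, sum_inner, inner_sum]
  exact Finset.sum_congr rfl fun q _ => swap_symm hρ p q u v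

theorem T2_symm (S : Finset α) : (T2 ρ S).IsSymmetric := by
  intro u v
  rw [SpecBasic_T2_apply, SpecBasic_T2_apply, sum_inner, inner_sum]
  exact Finset.sum_congr rfl fun q _ => J_symm hρ S q u v

theorem C_symm (S : Finset α) : (C ρ S).IsSymmetric := by
  intro u v
  rw [SpecBasic_C_apply, SpecBasic_C_apply, sum_inner, inner_sum]
  refine Finset.sum_bij' (fun σ _ => σ⁻¹) (fun σ _ => σ⁻¹) (fun σ hσ => inv_mem_cyc hσ)
    (fun σ hσ => inv_mem_cyc hσ) (fun σ _ => inv_inv σ) (fun σ _ => inv_inv σ) ?_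
  intro σ _
  have h1 : v = ρ σ (ρ σ⁻¹ v) := by
    rw [← SpecBasic_mul, mul_inv_cancel, SpecBasic_one]
  conv_lhs => rw [h1]
  rw [hρ]

private theorem SpecBasic_abs (σ : Perm α) (w : V) : |⟪ρ σ w, w⟫_ℝ| ≤ ‖w‖ ^ 2 := by
  have h1 : ‖ρ σ w‖ = ‖w‖ := by
    rw [← sq_eq_sq₀ (norm_nonneg _) (norm_nonneg _), ← real_inner_self_eq_norm_sq,
      ← real_inner_self_eq_norm_sq, hρ]
  have h2 := abs_real_inner_le_norm (ρ σ w) w
  rw [h1, ← pow_two] at h2
  exact h2

private theorem SpecBasic_J_abs {S : Finset α} {p : α} (hp : p ∈ S) (w : V) :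
    |⟪J ρ S p w, w⟫_ℝ| ≤ ((S.card : ℝ) - 1) * ‖w‖ ^ 2 := by
  rw [SpecBasic_J_apply, sum_inner]
  refine (Finset.abs_sum_le_sum_abs _ _).trans ?_
  refine (Finset.sum_le_sum fun q _ => SpecBasic_abs hρ _ w).trans ?_
  rw [Finset.sum_const, Finset.card_erase_of_mem hp, nsmul_eq_mul,
    Nat.cast_sub (Finset.card_pos.mpr ⟨p, hp⟩), Nat.cast_one]

/-- an eigenvalue of `J` is at most `|S| - 1` in absolute value -/
theorem J_eig_bound {S : Finset α} {p : α} (hp : p ∈ S) {w : V} (hw : w ≠ 0) {c : ℝ}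
    (h : J ρ S p w = c • w) : |c| ≤ (S.card : ℝ) - 1 := by
  have h1 := SpecBasic_J_abs hρ hp w
  rw [h, real_inner_smul_left, real_inner_self_eq_norm_sq, abs_mul, abs_of_nonneg (sq_nonneg ‖w‖)]
    at h1
  exact le_of_mul_le_mul_right h1 (by have := norm_pos_iff.mpr hw; positivity)

/-- an eigenvalue of `T2` is at most `|S| (|S| - 1)` in absolute value -/
theorem T2_eig_bound {S : Finset α} {w : V} (hw : w ≠ 0) {t : ℝ}
    (h : T2 ρ S w = t • w) : |t| ≤ (S.card : ℝ) * ((S.card : ℝ) - 1) := by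
  have h1 : |⟪T2 ρ S w, w⟫_ℝ| ≤ (S.card : ℝ) * ((S.card : ℝ) - 1) * ‖w‖ ^ 2 := by
    rw [SpecBasic_T2_apply, sum_inner]
    refine (Finset.abs_sum_le_sum_abs _ _).trans ?_
    refine (Finset.sum_le_sum fun q hq => SpecBasic_J_abs hρ hq w).trans ?_
    rw [Finset.sum_const, nsmul_eq_mul, mul_assoc]
  rw [h, real_inner_smul_left, real_inner_self_eq_norm_sq, abs_mul, abs_of_nonneg (sq_nonneg ‖w‖)]
    at h1
  exact le_of_mul_le_mul_right h1 (by have := norm_pos_iff.mpr hw; positivity)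

/-- equality for the upper bound: the vector is fixed -/
theorem fixed_of_T2_max {S : Finset α} {w : V}
    (h : T2 ρ S w = ((S.card : ℝ) * ((S.card : ℝ) - 1)) • w) :
    ∀ x ∈ S, ∀ y ∈ S, ρ (Equiv.swap x y) w = w := by
  have h0 : ∑ p ∈ S, ∑ q ∈ S.erase p, (‖w‖ ^ 2 - ⟪ρ (Equiv.swap p q) w, w⟫_ℝ) = 0 := by
    have h1 : ⟪T2 ρ S w, w⟫_ℝ = ∑ p ∈ S, ∑ q ∈ S.erase p, ⟪ρ (Equiv.swap p q) w, w⟫_ℝ := by
      rw [SpecBasic_T2_apply, sum_inner]
      refine Finset.sum_congr rfl fun p _ => ?_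
      rw [SpecBasic_J_apply, sum_inner]
    have h2 : ∑ p ∈ S, ∑ q ∈ S.erase p, ‖w‖ ^ 2 = (S.card : ℝ) * ((S.card : ℝ) - 1) * ‖w‖ ^ 2 := by
      have h3 : ∀ p ∈ S, ∑ q ∈ S.erase p, ‖w‖ ^ 2 = ((S.card : ℝ) - 1) * ‖w‖ ^ 2 := by
        intro p hp
        rw [Finset.sum_const, Finset.card_erase_of_mem hp, nsmul_eq_mul,
          Nat.cast_sub (Finset.card_pos.mpr ⟨p, hp⟩), Nat.cast_one]
      rw [Finset.sum_congr rfl h3, Finset.sum_const, nsmul_eq_mul, mul_assoc]
    simp only [Finset.sum_sub_distrib]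
    rw [← h1, h2, h, real_inner_smul_left, real_inner_self_eq_norm_sq, sub_self]
  have hnn : ∀ p ∈ S, ∀ q ∈ S.erase p, 0 ≤ ‖w‖ ^ 2 - ⟪ρ (Equiv.swap p q) w, w⟫_ℝ := by
    intro p _ q _
    have h1 := (abs_le.mp (SpecBasic_abs hρ (Equiv.swap p q) w)).2
    linarith
  intro x hx y hy
  by_cases hxy : x = y
  · rw [hxy, Equiv.swap_self]
    exact SpecBasic_one w
  · have h1 := (Finset.sum_eq_zero_iff_of_nonneg fun p hp => Finset.sum_nonneg (hnn p hp)).mp h0
      x hx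
    have h2 := (Finset.sum_eq_zero_iff_of_nonneg (hnn x hx)).mp h1 y
      (Finset.mem_erase.mpr ⟨Ne.symm hxy, hy⟩)
    have h3 : ‖ρ (Equiv.swap x y) w - w‖ ^ 2 = 0 := by
      rw [← real_inner_self_eq_norm_sq, inner_sub_left, inner_sub_right, inner_sub_right, hρ,
        real_inner_comm (ρ (Equiv.swap x y) w) w, real_inner_self_eq_norm_sq]
      linarith
    have h4 := pow_eq_zero_iff (two_ne_zero) |>.mp h3
    exact sub_eq_zero.mp (norm_eq_zero.mp h4)

omit [FiniteDimensional ℝ V] hρ in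
/-- a vector fixed by the transpositions in `S.erase p` which is an eigenvector of `J ρ S p` with
eigenvalue different from `-1` is fixed by all transpositions in `S` -/
theorem fixed_of_fixed_erase {S : Finset α} {p : α} (hp : p ∈ S) {w : V} {c : ℝ}
    (hfix : ∀ x ∈ S.erase p, ∀ y ∈ S.erase p, ρ (Equiv.swap x y) w = w)
    (h : J ρ S p w = c • w) (hc : c ≠ -1) :
    ∀ x ∈ S, ∀ y ∈ S, ρ (Equiv.swap x y) w = w := by
  have hs : (1 + c) • w = w + J ρ S p w := by rw [h, add_smul, one_smul]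
  have hc' : 1 + c ≠ 0 := fun h => hc (by linarith)
  have hback : ∀ x y : α, ρ (Equiv.swap x y) (w + J ρ S p w) = w + J ρ S p w →
      ρ (Equiv.swap x y) w = w := by
    intro x y hxy
    rw [← hs, map_smul] at hxy
    exact smul_right_injective V hc' hxy
  have hp' : ∀ y ∈ S.erase p, ρ (Equiv.swap p y) w = w := by
    intro y hy
    apply hback
    rw [map_add, SpecBasic_J_apply, map_sum, ← Finset.add_sum_erase (S.erase p) _ hy,
      ← Finset.add_sum_erase (S.erase p) _ hy, ← SpecBasic_mul, Equiv.swap_mul_self, SpecBasic_one]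
    have h1 : ∀ q ∈ (S.erase p).erase y,
        ρ (Equiv.swap p y) (ρ (Equiv.swap p q) w) = ρ (Equiv.swap p q) w := by
      intro q hq
      rw [Finset.mem_erase] at hq
      have hyp : y ≠ p := (Finset.mem_erase.mp hy).1
      have e : Equiv.swap p y * Equiv.swap p q = Equiv.swap p q * Equiv.swap q y := by
        rw [Equiv.swap_mul_eq_mul_swap, Equiv.swap_inv, Equiv.swap_apply_left,
          Equiv.swap_apply_of_ne_of_ne hyp hq.1.symm]
      rw [← SpecBasic_mul, e, SpecBasic_mul, hfix q hq.2 y hy]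
    rw [Finset.sum_congr rfl h1]
    abel
  intro x hx y hy
  by_cases hxp : x = p
  · by_cases hyp : y = p
    · rw [hxp, hyp, Equiv.swap_self]
      exact SpecBasic_one w
    · rw [hxp]
      exact hp' y (Finset.mem_erase.mpr ⟨hyp, hy⟩)
  · by_cases hyp : y = p
    · rw [hyp, Equiv.swap_comm]
      exact hp' x (Finset.mem_erase.mpr ⟨hxp, hx⟩)
    · exact hfix x (Finset.mem_erase.mpr ⟨hxp, hx⟩) y (Finset.mem_erase.mpr ⟨hyp, hy⟩)

omit [FiniteDimensional ℝ V] hρ in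
/-- on a fixed vector `C` acts by the number of cycles -/
theorem C_fixed {S : Finset α} (hS : 2 ≤ S.card) {w : V}
    (hfix : ∀ x ∈ S, ∀ y ∈ S, ρ (Equiv.swap x y) w = w) :
    C ρ S w = ((S.card - 1).factorial : ℝ) • w := by
  rw [SpecBasic_C_apply]
  have h1 : ∀ σ ∈ cyc S, ρ σ w = w := by
    intro σ hσ
    refine SpecBasic_ind (S := S) (fun σ => ρ σ w = w) ?_ ?_ σ (mem_cyc.mp hσ).2.le
    · exact SpecBasic_one w
    · intro x hx y hy τ hτ
      rw [SpecBasic_mul, hτ, hfix x hx y hy]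
  rw [Finset.sum_congr rfl h1, Finset.sum_const, card_cyc hS, ← Nat.cast_smul_eq_nsmul ℝ]

/-- some star operator has an eigenvalue at most the average -/
theorem exists_small_eig {S : Finset α} (hS : S.Nonempty) (W : Submodule ℝ V) (hW : W ≠ ⊥)
    (hinv : ∀ x ∈ S, ∀ y ∈ S, ∀ w ∈ W, ρ (Equiv.swap x y) w ∈ W) {t : ℝ}
    (hT : ∀ w ∈ W, T2 ρ S w = (2 * t) • w) :
    ∃ p ∈ S, ∃ c : ℝ, (S.card : ℝ) * c ≤ 2 * t ∧ ∃ w ∈ W, w ≠ 0 ∧ J ρ S p w = c • w := by
  obtain ⟨w0, hw0, hne⟩ := (Submodule.ne_bot_iff W).mp hW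
  have hpos : 0 < ‖w0‖ ^ 2 := by
    have := norm_pos_iff.mpr hne
    positivity
  have h1 : ∑ p ∈ S, ⟪J ρ S p w0, w0⟫_ℝ = ∑ p ∈ S, (2 * t * ‖w0‖ ^ 2 / S.card) := by
    rw [← sum_inner, ← SpecBasic_T2_apply, hT w0 hw0, real_inner_smul_left,
      real_inner_self_eq_norm_sq, Finset.sum_const, nsmul_eq_mul]
    have : (S.card : ℝ) ≠ 0 := by
      exact_mod_cast (Finset.card_pos.mpr hS).ne'
    field_simp
  obtain ⟨p, hp, hle⟩ := Finset.exists_le_of_sum_le hS h1.le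
  obtain ⟨c, w, hw, hwne, hAw, hmin⟩ := exists_min_eig (J ρ S p) (J_symm hρ S p) W hW
    (fun w hw => J_mem hp W hinv hw)
  refine ⟨p, hp, c, ?_, w, hw, hwne, hAw⟩
  have h2 := (hmin w0 hw0).trans hle
  rw [real_inner_self_eq_norm_sq] at h2
  have hcard : (0 : ℝ) < S.card := by exact_mod_cast Finset.card_pos.mpr hS
  rw [le_div_iff₀ hcard] at h2
  refine le_of_mul_le_mul_right (a := ‖w0‖ ^ 2) ?_ hpos
  linarith

end orth

end Pool.H98.BE
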